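import Pool.Agent.H83.MW.PushGap

/-! # MP_1fe246_co: gap words, exact ages, old gaps -/

set_option autoImplicit false
set_option linter.unusedSectionVars false

namespace Pool.Agent.H83.MW

open Pool.Agent.H68.MW

/-- trailing bounded letters of `τ x` -/
noncomputable def rho {B : Type} (τ : B → List B) (x : B) : List B := (τ x).drop ((τ x).length - rl τ x)

/-- leading bounded letters of `τ x` -/
noncomputable def lam {B : Type} (τ : B → List B) (x : B) : List B := (τ x).take (ll τ x)

/-- letter `t` of `τ y` -/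
def lt' {B : Type} (τ : B → List B) (y : B) (t : ℕ) : B := ((τ y)[t]?).getD y

/-- word of a gap of type `(y,t,t')` and age `a` -/
noncomputable def runW {B : Type} (τ : B → List B) (y : B) (t t' : ℕ) : ℕ → List B
  | 0 => ((τ y).drop (t + 1)).take (t' - t - 1)
  | a + 1 => rho τ ((rf τ)^[a] (lt' τ y t)) ++ runW τ y t t' a ++ lam τ ((lf τ)^[a] (lt' τ y t'))

/-- gap of exact age `a` -/
def AgeT {B : Type} (τ : B → List B) (v : ℤ → B) (c : ℤ → ℤ) (a : ℕ) (y : B) (t t' : ℕ) (i j : ℤ) : Prop :=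
  ∃ m, v m = y ∧ t < t' ∧ t' < (τ y).length ∧ Gap τ v (c m + t) (c m + t') ∧
    i = (RR τ v c)^[a] (c m + t) ∧ j = (LL τ v c)^[a] (c m + t')

/-- gap of age at least `s` -/
def Old {B : Type} (τ : B → List B) (v : ℤ → B) (c : ℤ → ℤ) (s : ℕ) (i j : ℤ) : Prop :=
  ∃ i' j', Gap τ v i' j' ∧ i = (RR τ v c)^[s] i' ∧ j = (LL τ v c)^[s] j'

variable {B : Type} [Fintype B] {τ : B → List B} {v : ℤ → B} {c : ℤ → ℤ}

theorem length_rho (hN : Nrm τ) {x : B} (hx : Gr τ x) : (rho τ x).length = rl τ x := by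
  have := rl_lt hN hx
  simp [rho]
  omega

theorem length_lam (hN : Nrm τ) {x : B} (hx : Gr τ x) : (lam τ x).length = ll τ x := by
  have := ll_lt hN hx
  simp [lam]
  omega

/-- windows of the fixed point inside a block -/
theorem win_block (h : Img τ v v c) (i : ℤ) (s n : ℕ) (hs : s + n ≤ (τ (v i)).length) :
    win v (c i + s) n = ((τ (v i)).drop s).take n := by
  apply List.ext_getElem
  · simp
    omega
  · intro k h1 h2
    rw [getElem_win, List.getElem_take, List.getElem_drop]
    simp only [length_win] at h1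
    rw [← h.val i (s + k) (by omega)]
    congr 1
    push_cast
    ring

section
variable (hN : Nrm τ) (h : Img τ v v c)
include hN h

theorem win_rho {i : ℤ} (hi : Gr τ (v i)) : win v (RR τ v c i + 1) (rl τ (v i)) = rho τ (v i) := by
  have h1 := rl_lt hN hi
  have h2 := win_block h i ((τ (v i)).length - rl τ (v i)) (rl τ (v i)) (by omega)
  have e : c i + (((τ (v i)).length - rl τ (v i) : ℕ) : ℤ) = RR τ v c i + 1 := by
    unfold RR
    rw [h.step]
    omega
  rw [e] at h2
  rw [h2, rho, List.take_of_length_le]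
  simp
  omega

theorem win_lam {i : ℤ} (hi : Gr τ (v i)) : win v (c i) (ll τ (v i)) = lam τ (v i) := by
  have h1 := ll_lt hN hi
  have h2 := win_block h i 0 (ll τ (v i)) (by omega)
  simpa [lam] using h2

/-- the word of the child gap -/
theorem win_child {i j : ℤ} (g : Gap τ v i j) :
    win v (RR τ v c i + 1) (LL τ v c j - RR τ v c i - 1).toNat
      = rho τ (v i) ++ win v (i + 1) (j - i - 1).toNat ++ lam τ (v j) := by
  have h1 := (g.child hN h).2
  have h2 := g.lt
  have h3 : (LL τ v c j - RR τ v c i - 1).toNat = rl τ (v i) + (j - i - 1).toNat + ll τ (v j) := by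
    omega
  rw [h3, win_add, win_add, win_rho hN h g.gl]
  have e1 : RR τ v c i + 1 + (rl τ (v i) : ℤ) = c (i + 1) := by unfold RR; ring
  have h4 := g.cut h
  have e2 : RR τ v c i + 1 + ((rl τ (v i) + (j - i - 1).toNat : ℕ) : ℤ) = c j := by
    push_cast
    rw [← add_assoc, e1, h4.1]
    omega
  rw [e1, e2, win_lam hN h g.gr]
  congr 2
  rw [win_eq_iff]
  intro t ht
  exact h4.2 t (by omega) (by omega)

theorem AgeT.gap {a : ℕ} {y : B} {t t' : ℕ} {i j : ℤ} (hA : AgeT τ v c a y t t' i j) : Gap τ v i j := by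
  obtain ⟨m, _, _, _, g, rfl, rfl⟩ := hA
  exact gap_iter hN h g a

theorem AgeT.letters {a : ℕ} {y : B} {t t' : ℕ} {i j : ℤ} (hA : AgeT τ v c a y t t' i j) :
    v i = (rf τ)^[a] (lt' τ y t) ∧ v j = (lf τ)^[a] (lt' τ y t') := by
  obtain ⟨m, hm, htt, ht', g, rfl, rfl⟩ := hA
  induction a with
  | zero =>
    simp only [Function.iterate_zero, id_eq, lt']
    constructor
    · rw [h.val m t (by rw [hm]; omega)]
      simp only [hm]
      rw [List.getElem?_eq_getElem (by omega)]
      rfl
    · rw [h.val m t' (by rw [hm]; omega)]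
      simp only [hm]
      rw [List.getElem?_eq_getElem (by omega)]
      rfl
  | succ a ih =>
    have g' := gap_iter hN h g a
    simp only [Function.iterate_succ_apply']
    rw [v_RR hN h g'.gl, v_LL hN h g'.gr, ih.1, ih.2]
    exact ⟨rfl, rfl⟩

theorem AgeT.run {a : ℕ} {y : B} {t t' : ℕ} {i j : ℤ} (hA : AgeT τ v c a y t t' i j) :
    win v (i + 1) (j - i - 1).toNat = runW τ y t t' a := by
  induction a generalizing i j with
  | zero =>
    obtain ⟨m, hm, htt, ht', g, rfl, rfl⟩ := hA
    simp only [Function.iterate_zero, id_eq, runW]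
    have h1 := win_block h m (t + 1) (t' - t - 1) (by rw [hm]; omega)
    rw [hm] at h1
    rw [← h1]
    congr 1
    · push_cast; ring
    · omega
  | succ a ih =>
    obtain ⟨m, hm, htt, ht', g, rfl, rfl⟩ := hA
    have hA' : AgeT τ v c a y t t' ((RR τ v c)^[a] (c m + t)) ((LL τ v c)^[a] (c m + t')) :=
      ⟨m, hm, htt, ht', g, rfl, rfl⟩
    have g' := gap_iter hN h g a
    have h1 := hA'.letters hN h
    simp only [Function.iterate_succ_apply']
    rw [win_child hN h g', ih hA', h1.1, h1.2]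
    rfl

/-- a gap inside a block of level `L` has exact age `< L` -/
theorem gap_ageT {L : ℕ} {m : ℤ} : ∀ {i j : ℤ}, Gap τ v i j → (c^[L]) m ≤ i → j < (c^[L]) (m + 1) →
    ∃ a < L, ∃ y t t', AgeT τ v c a y t t' i j := by
  induction L with
  | zero =>
    intro i j g h1 h2
    have := g.lt
    simp only [Function.iterate_zero, id_eq] at h1 h2
    omega
  | succ L ih =>
    intro i j g h1 h2
    rw [Function.iterate_succ_apply'] at h1 h2
    rcases g.parent hN h with ⟨n, hn1, hn2, hn3⟩ | ⟨i', j', g', rfl, rfl⟩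
    · have h3 := h.step n
      have h4 := g.lt
      refine ⟨0, by omega, v n, (i - c n).toNat, (j - c n).toNat, n, rfl, by omega, by omega, ?_, ?_, ?_⟩
      · have e1 : c n + (((i - c n).toNat : ℕ) : ℤ) = i := by omega
        have e2 : c n + (((j - c n).toNat : ℕ) : ℤ) = j := by omega
        rw [e1, e2]; exact g
      · simp only [Function.iterate_zero, id_eq]; omega
      · simp only [Function.iterate_zero, id_eq]; omega
    · have h3 := c_lt_RR hN h g'.gl
      have h4 := c_lt_LL hN h g'.gr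
      obtain ⟨a, ha, y, t, t', k, hk1, hk2, hk3, hk4, hk5, hk6⟩ := ih g' (by
        by_contra hcon
        have := h.strictMono.monotone (show i' + 1 ≤ (c^[L]) m by omega)
        omega) (by
        by_contra hcon
        have := h.strictMono.monotone (show (c^[L]) (m + 1) ≤ j' by omega)
        omega)
      refine ⟨a + 1, by omega, y, t, t', k, hk1, hk2, hk3, hk4, ?_, ?_⟩
      · rw [Function.iterate_succ_apply', ← hk5]
      · rw [Function.iterate_succ_apply', ← hk6]

theorem Old.gap {s : ℕ} {i j : ℤ} (hO : Old τ v c s i j) : Gap τ v i j := by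
  obtain ⟨i', j', g, rfl, rfl⟩ := hO
  exact gap_iter hN h g s

theorem Old.pred {s : ℕ} {i j : ℤ} (hO : Old τ v c (s + 1) i j) :
    ∃ i' j', Old τ v c s i' j' ∧ i = RR τ v c i' ∧ j = LL τ v c j' := by
  obtain ⟨i', j', g, rfl, rfl⟩ := hO
  exact ⟨_, _, ⟨i', j', g, rfl, rfl⟩, Function.iterate_succ_apply' _ _ _,
    Function.iterate_succ_apply' _ _ _⟩

theorem Old.mono {s s' : ℕ} (hs : s' ≤ s) {i j : ℤ} (hO : Old τ v c s i j) : Old τ v c s' i j := by
  obtain ⟨d, rfl⟩ := Nat.exists_eq_add_of_le hs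
  obtain ⟨i', j', g, rfl, rfl⟩ := hO
  exact ⟨_, _, gap_iter hN h g d, by rw [← Function.iterate_add_apply],
    by rw [← Function.iterate_add_apply]⟩

theorem Old.stable {s : ℕ} {i j : ℤ} (hO : Old τ v c (s + 1) i j) :
    rf τ (v i) = v i ∧ lf τ (v j) = v j := by
  obtain ⟨i', j', hO', rfl, rfl⟩ := hO.pred hN h
  have g := hO'.gap hN h
  rw [v_RR hN h g.gl, v_LL hN h g.gr]
  exact ⟨hN.idR _ g.gl, hN.idL _ g.gr⟩

/-- length of an old gap -/
theorem Old.len {s : ℕ} {i j : ℤ} (hO : Old τ v c (s + 1) i j) :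
    s * (rl τ (v i) + ll τ (v j)) ≤ j - i - 1 := by
  induction s generalizing i j with
  | zero =>
    have := (hO.gap hN h).lt
    simp only [Nat.cast_zero, zero_mul]
    omega
  | succ s ih =>
    obtain ⟨i', j', hO', rfl, rfl⟩ := hO.pred hN h
    have g := hO'.gap hN h
    have h1 := (g.child hN h).2
    have h2 := hO'.stable hN h
    have h3 := ih hO'
    rw [v_RR hN h g.gl, v_LL hN h g.gr, h2.1, h2.2]
    have e : ((s + 1 : ℕ) : ℤ) * (rl τ (v i') + ll τ (v j'))
        = s * (rl τ (v i') + ll τ (v j')) + (rl τ (v i') + ll τ (v j')) := by push_cast; ring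
    rw [e]
    omega

end

/-- the periodic word `rho h rho h ...` -/
noncomputable def perR {B : Type} (τ : B → List B) (x : B) (t : ℕ) : B :=
  ((rho τ x)[t % (rl τ x)]?).getD x

theorem perR_add {B : Type} (τ : B → List B) (x : B) (t : ℕ) : perR τ x (rl τ x + t) = perR τ x t := by
  unfold perR
  rw [Nat.add_mod_left]

section
variable (hN : Nrm τ) (h : Img τ v v c)
include hN h

/-- an old gap starts with a long power of `rho h` -/
theorem Old.per {s : ℕ} {i j : ℤ} (hO : Old τ v c (s + 1) i j) :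
    ∀ t : ℕ, t < s * rl τ (v i) → v (i + 1 + t) = perR τ (v i) t := by
  induction s generalizing i j with
  | zero => intro t ht; omega
  | succ s ih =>
    obtain ⟨i', j', hO', rfl, rfl⟩ := hO.pred hN h
    have g := hO'.gap hN h
    have h2 := hO'.stable hN h
    rw [v_RR hN h g.gl, h2.1]
    intro t ht
    by_cases h3 : t < rl τ (v i')
    · have h4 := win_rho hN h g.gl
      have h5 : (win v (RR τ v c i' + 1) (rl τ (v i')))[t]'(by simpa using h3)
          = (rho τ (v i'))[t]'(by rw [length_rho hN g.gl]; exact h3) := by simp only [h4]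
      rw [getElem_win] at h5
      rw [h5, perR, Nat.mod_eq_of_lt h3, List.getElem?_eq_getElem (by rw [length_rho hN g.gl]; exact h3)]
      rfl
    · obtain ⟨u, rfl⟩ := Nat.exists_eq_add_of_le (not_lt.1 h3)
      rw [perR_add]
      have h5 : u < s * rl τ (v i') := by
        have e : (s + 1) * rl τ (v i') = s * rl τ (v i') + rl τ (v i') := by ring
        omega
      rw [← ih hO' u h5]
      have h6 := hO'.len hN h
      have h7 : ((u : ℕ) : ℤ) < j' - i' - 1 := by
        have : (u : ℤ) < (s : ℤ) * (rl τ (v i') : ℤ) := by exact_mod_cast h5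
        have h8 : (s : ℤ) * (rl τ (v i') : ℤ) ≤ s * (rl τ (v i') + ll τ (v j')) := by
          apply mul_le_mul_of_nonneg_left <;> omega
        omega
      have h8 := (g.cut h).2 u (by omega) h7
      rw [← h8]
      congr 1
      unfold RR
      push_cast
      ring

/-- lengths of the words `runW` -/
theorem length_runW {a : ℕ} {y : B} {t t' : ℕ} {i j : ℤ} (hA : AgeT τ v c a y t t' i j) :
    (runW τ y t t' a).length = (j - i - 1).toNat := by
  rw [← hA.run hN h, length_win]

theorem AgeT.pred {a : ℕ} {y : B} {t t' : ℕ} {i j : ℤ} (hA : AgeT τ v c (a + 1) y t t' i j) :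
    ∃ i' j', AgeT τ v c a y t t' i' j' ∧ i = RR τ v c i' ∧ j = LL τ v c j' := by
  obtain ⟨m, hm, h1, h2, g, rfl, rfl⟩ := hA
  exact ⟨_, _, ⟨m, hm, h1, h2, g, rfl, rfl⟩, Function.iterate_succ_apply' _ _ _,
    Function.iterate_succ_apply' _ _ _⟩

theorem AgeT.succ {a : ℕ} {y : B} {t t' : ℕ} {i j : ℤ} (hA : AgeT τ v c a y t t' i j) :
    AgeT τ v c (a + 1) y t t' (RR τ v c i) (LL τ v c j) := by
  obtain ⟨m, hm, h1, h2, g, rfl, rfl⟩ := hA
  exact ⟨m, hm, h1, h2, g, (Function.iterate_succ_apply' _ _ _).symm,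
    (Function.iterate_succ_apply' _ _ _).symm⟩

theorem AgeT.stable {a : ℕ} {y : B} {t t' : ℕ} {i j : ℤ} (hA : AgeT τ v c (a + 1) y t t' i j) :
    rf τ (v i) = v i ∧ lf τ (v j) = v j := by
  obtain ⟨i', j', hA', rfl, rfl⟩ := hA.pred hN h
  have g := hA'.gap hN h
  rw [v_RR hN h g.gl, v_LL hN h g.gr]
  exact ⟨hN.idR _ g.gl, hN.idL _ g.gr⟩

theorem rl_le (x : B) (hx : Gr τ x) : rl τ x ≤ tl τ :=
  le_trans (rl_lt hN hx).le (length_le_tl τ x)

theorem ll_le (x : B) (hx : Gr τ x) : ll τ x ≤ tl τ :=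
  le_trans (ll_lt hN hx).le (length_le_tl τ x)

/-- upper bound for the length of a gap of exact age -/
theorem AgeT.len_le {a : ℕ} {y : B} {t t' : ℕ} {i j : ℤ} (hA : AgeT τ v c a y t t' i j) :
    j - i - 1 ≤ 3 * tl τ + a * (rl τ (v i) + ll τ (v j)) := by
  induction a generalizing i j with
  | zero =>
    obtain ⟨m, hm, h1, h2, g, rfl, rfl⟩ := hA
    have := length_le_tl τ y
    simp only [Function.iterate_zero, id_eq, Nat.cast_zero, zero_mul]
    omega
  | succ a ih =>
    obtain ⟨i', j', hA', rfl, rfl⟩ := hA.pred hN h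
    have g := hA'.gap hN h
    have h1 := (g.child hN h).2
    have h3 := ih hA'
    rw [v_RR hN h g.gl, v_LL hN h g.gr]
    cases a with
    | zero =>
      obtain ⟨m, hm, h4, h5, g', rfl, rfl⟩ := hA'
      have h6 := length_le_tl τ y
      have h7 := rl_le hN h _ g'.gl
      have h8 := ll_le hN h _ g'.gr
      simp only [Function.iterate_zero, id_eq] at h1 h3 ⊢
      have : (0 : ℤ) ≤ (((0 + 1 : ℕ) : ℤ)) * (rl τ (rf τ (v (c m + t))) + ll τ (lf τ (v (c m + t')))) := by
        positivity
      omega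
    | succ a =>
      have h2 := hA'.stable hN h
      rw [h2.1, h2.2]
      have e : (((a + 1 + 1 : ℕ)) : ℤ) * (rl τ (v i') + ll τ (v j'))
          = ((a + 1 : ℕ) : ℤ) * (rl τ (v i') + ll τ (v j')) + (rl τ (v i') + ll τ (v j')) := by
        push_cast; ring
      rw [e]
      omega

/-- MATCH: a gap that is old on one side and young on the other side has rate zero and is short -/
theorem match_gap {a s : ℕ} {y : B} {t t' : ℕ} {i j i' j' : ℤ} (hA : AgeT τ v c a y t t' i j)
    (hO : Old τ v c (s + 1) i' j') (hi : v i = v i') (hj : v j = v j') (hl : j - i = j' - i')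
    (hs : a + 3 * tl τ < s) : rl τ (v i') + ll τ (v j') = 0 ∧ j' - i' - 1 ≤ 3 * tl τ := by
  have h1 := hA.len_le hN h
  have h2 := hO.len hN h
  rw [hi, hj] at h1
  have hκ : rl τ (v i') + ll τ (v j') = 0 := by
    by_contra hne
    have h3 : (1 : ℤ) ≤ rl τ (v i') + ll τ (v j') := by
      have : 1 ≤ rl τ (v i') + ll τ (v j') := Nat.one_le_iff_ne_zero.2 hne
      exact_mod_cast this
    have h4 : ((s : ℤ) - a) * 1 ≤ ((s : ℤ) - a) * (rl τ (v i') + ll τ (v j')) := by
      apply mul_le_mul_of_nonneg_left h3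
      omega
    have h5 : ((s : ℤ) - a) * (rl τ (v i') + ll τ (v j'))
        = s * (rl τ (v i') + ll τ (v j')) - a * (rl τ (v i') + ll τ (v j')) := by ring
    rw [h5] at h4
    omega
  refine ⟨hκ, ?_⟩
  have h3 : ((rl τ (v i') : ℤ) + ll τ (v j')) = 0 := by exact_mod_cast hκ
  rw [h3] at h1
  omega

end

end Pool.Agent.H83.MW
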