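import Pool.Agent.H88.MW.Cover
import Pool.Agent.H83.MW.Run

/-! # MP_1fe246_co: mirror lemmas -/

set_option autoImplicit false

namespace Pool.Agent.H83.MW

open Pool.Agent.H68.MW Pool.Agent.H88.MW

variable {B : Type} {τ : B → List B} {v : ℤ → B} {c : ℤ → ℤ}

theorem ll_mir (x : B) : ll (fun x => (τ x).reverse) x = rl τ x := by
  unfold ll rl
  congr 1
  funext y
  exact decide_eq_decide.2 gr_mirror

theorem rl_mir (x : B) : rl (fun x => (τ x).reverse) x = ll τ x := by
  unfold ll rl
  simp only [List.reverse_reverse]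
  congr 1
  funext y
  exact decide_eq_decide.2 gr_mirror

theorem iter_mirror (L : ℕ) (n : ℤ) : ((fun n => -c (-n))^[L]) n = -(c^[L]) (-n) := by
  induction L with
  | zero => simp
  | succ L ih =>
    rw [Function.iterate_succ_apply', Function.iterate_succ_apply', ih]
    simp

theorem gap_mirror {i j : ℤ} (g : Gap τ v i j) :
    Gap (fun b => (τ b).reverse) (fun n => v (-1 - n)) (-1 - j) (-1 - i) := by
  have e1 : ∀ z : ℤ, -1 - (-1 - z) = z := fun z => by ring
  refine ⟨by have := g.lt; omega, ?_, ?_, ?_⟩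
  · rw [gr_mirror, e1]; exact g.gr
  · rw [gr_mirror, e1]; exact g.gl
  · intro z h1 h2
    rw [gr_mirror]
    exact g.bd _ (by omega) (by omega)

theorem LL_mir (z : ℤ) :
    LL (fun b => (τ b).reverse) (fun n => v (-1 - n)) (fun n => -c (-n)) (-1 - z) = -1 - RR τ v c z := by
  unfold LL RR
  rw [ll_mir]
  have e1 : -1 - (-1 - z) = z := by ring
  have e2 : -(-1 - z) = z + 1 := by ring
  simp only [e1, e2]
  ring

theorem RR_mir (z : ℤ) :
    RR (fun b => (τ b).reverse) (fun n => v (-1 - n)) (fun n => -c (-n)) (-1 - z) = -1 - LL τ v c z := by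
  unfold LL RR
  rw [rl_mir]
  have e1 : -1 - (-1 - z) = z := by ring
  have e2 : -(-1 - z + 1) = z := by ring
  simp only [e1, e2]
  ring

theorem LL_iter_mir (s : ℕ) (z : ℤ) :
    (LL (fun b => (τ b).reverse) (fun n => v (-1 - n)) (fun n => -c (-n)))^[s] (-1 - z)
      = -1 - (RR τ v c)^[s] z := by
  induction s with
  | zero => rfl
  | succ s ih => rw [Function.iterate_succ_apply', Function.iterate_succ_apply', ih, LL_mir]

theorem RR_iter_mir (s : ℕ) (z : ℤ) :
    (RR (fun b => (τ b).reverse) (fun n => v (-1 - n)) (fun n => -c (-n)))^[s] (-1 - z)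
      = -1 - (LL τ v c)^[s] z := by
  induction s with
  | zero => rfl
  | succ s ih => rw [Function.iterate_succ_apply', Function.iterate_succ_apply', ih, RR_mir]

theorem old_mirror {s : ℕ} {i j : ℤ} (g : Old τ v c s i j) :
    Old (fun b => (τ b).reverse) (fun n => v (-1 - n)) (fun n => -c (-n)) s (-1 - j) (-1 - i) := by
  obtain ⟨i', j', g', rfl, rfl⟩ := g
  exact ⟨-1 - j', -1 - i', gap_mirror g', (RR_iter_mir s j').symm, (LL_iter_mir s i').symm⟩

theorem old_mirror' {s : ℕ} {i j : ℤ}
    (g : Old (fun b => (τ b).reverse) (fun n => v (-1 - n)) (fun n => -c (-n)) s (-1 - j) (-1 - i)) :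
    Old τ v c s i j := by
  have h1 := old_mirror g
  have e0 : ∀ z : ℤ, -1 - (-1 - z) = z := fun z => by ring
  have e1 : (fun b => ((τ b).reverse).reverse) = τ := by funext b; simp
  have e2 : (fun n : ℤ => v (-1 - (-1 - n))) = v := by funext n; congr 1; ring
  have e3 : (fun n : ℤ => - -c (- -n)) = c := by funext n; simp
  simp only [e1, e3, e0] at h1
  exact h1

end Pool.Agent.H83.MW
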