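import Pool.Agent.H83.MW.Walk
import Pool.Agent.H83.MW.Mir

/-! # MP_1fe246_co: TWO AGES -/

set_option autoImplicit false
set_option linter.unusedSectionVars false

namespace Pool.Agent.H83.MW

open Pool.Agent.H68.MW Pool.Agent.H88.MW

/-- statement of module TWO AGES -/
def TwoAges {B : Type} (τ : B → List B) (v : ℤ → B) (c : ℤ → ℤ) : Prop :=
  ∀ K : ℕ, ∃ (ι : Type) (_ : Finite ι) (Ω : ι → ℤ → B) (C : ℕ), ∀ (x y : ℤ) (r L a : ℕ) (i j : ℤ),
    win v x r = win v y r → InBlk c L x r →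
    (∀ i' j' : ℤ, Gap τ v i' j' → i' ≤ y + r + K → y ≤ j' + K → ∃ n, ¬ Old τ v c n i' j') →
    Old τ v c a i j → y - K ≤ j → i ≤ y + r + K → L + C ≤ a → C * (r + 1) ≤ a ^ 2 →
    ∃ (q : ι) (α : ℤ), win v y r = win (Ω q) α r ∧ -((r : ℤ) + C) ≤ α ∧ α ≤ r + C

/-- all the assumptions, symmetric under reflection -/
structure Sys {B : Type} (τ : B → List B) (v : ℤ → B) (c : ℤ → ℤ) : Prop where
  hN : Nrm τ
  h : Img τ v v c
  hR : ∀ x, ∃ y > x, Gr τ (v y)
  hL : ∀ x, ∃ y < x, Gr τ (v y)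
  hG : GapWord τ v c
  hM : MWord τ v c
  hG' : GapWord (fun b => (τ b).reverse) (fun n => v (-1 - n)) (fun n => -c (-n))
  hM' : MWord (fun b => (τ b).reverse) (fun n => v (-1 - n)) (fun n => -c (-n))

variable {B : Type} [Fintype B] {τ : B → List B} {v : ℤ → B} {c : ℤ → ℤ}

theorem Sys.mir (σ : Sys τ v c) : Sys (fun b => (τ b).reverse) (fun n => v (-1 - n)) (fun n => -c (-n)) where
  hN := nrm_mirror σ.hN
  h := σ.h.mirror
  hR x := by
    obtain ⟨y, hy, hg⟩ := σ.hL (-1 - x)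
    refine ⟨-1 - y, by omega, ?_⟩
    rw [gr_mirror]
    have e : (-1 - (-1 - y) : ℤ) = y := by ring
    rw [e]; exact hg
  hL x := by
    obtain ⟨y, hy, hg⟩ := σ.hR (-1 - x)
    refine ⟨-1 - y, by omega, ?_⟩
    rw [gr_mirror]
    have e : (-1 - (-1 - y) : ℤ) = y := by ring
    rw [e]; exact hg
  hG := σ.hG'
  hM := σ.hM'
  hG' := by
    have h1 := σ.hG
    have e1 : (fun b => ((τ b).reverse).reverse) = τ := by funext b; simp
    have e2 : (fun n : ℤ => v (-1 - (-1 - n))) = v := by funext n; congr 1; ring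
    have e3 : (fun n : ℤ => - -c (- -n)) = c := by funext n; simp
    simp only [e1, e2, e3]
    exact h1
  hM' := by
    have h1 := σ.hM
    have e1 : (fun b => ((τ b).reverse).reverse) = τ := by funext b; simp
    have e2 : (fun n : ℤ => v (-1 - (-1 - n))) = v := by funext n; congr 1; ring
    have e3 : (fun n : ℤ => - -c (- -n)) = c := by funext n; simp
    simp only [e1, e2, e3]
    exact h1

theorem inBlk_mirror {L : ℕ} {x : ℤ} {r : ℕ} (hb : InBlk c L x r) :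
    InBlk (fun n => -c (-n)) L (-(x + r)) r := by
  obtain ⟨m, h1, h2⟩ := hb
  refine ⟨-(m + 1), ?_, ?_⟩
  · rw [iter_mirror]
    have e : - -(m + 1) = m + 1 := by ring
    rw [e]; omega
  · have e2 : -(m + 1) + 1 = -m := by ring
    rw [e2, iter_mirror]
    have e : - -m = m := by ring
    rw [e]; omega

theorem win_mirror {x y : ℤ} {r : ℕ} (hW : ∀ t : ℕ, t < r → v (x + t) = v (y + t)) :
    ∀ t : ℕ, t < r → v (-1 - (-(x + r) + t)) = v (-1 - (-(y + r) + t)) := by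
  intro t ht
  have := hW (r - 1 - t) (by omega)
  have e1 : x + ((r - 1 - t : ℕ) : ℤ) = -1 - (-(x + r) + t) := by omega
  have e2 : y + ((r - 1 - t : ℕ) : ℤ) = -1 - (-(y + r) + t) := by omega
  rwa [e1, e2] at this

/-- RUNCMP to the left -/
theorem runcmp_left (σ : Sys τ v c) : ∃ (S : Set (ℕ → B)) (C : ℕ), S.Finite ∧
    ∀ (x y : ℤ) (r L s : ℕ) (i j : ℤ), (∀ t : ℕ, t < r → v (x + t) = v (y + t)) → InBlk c L x r →
      Gap τ v i j → (∃ n, ¬ Old τ v c n i j) → Old τ v c s i j → y ≤ j → j < y + r → i < y →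
      L + C ≤ s → ∃ Q ∈ S, ∀ t : ℕ, y ≤ j - 1 - t → v (j - 1 - t) = Q t := by
  obtain ⟨S, C, hS, hr⟩ := runcmp σ.mir.hN σ.mir.h σ.mir.hG
  refine ⟨S, C, hS, ?_⟩
  intro x y r L s i j hW hL g hfin hO h1 h2 h3 hs
  obtain ⟨n, hn⟩ := hfin
  obtain ⟨Q, hQ, hQ'⟩ := hr (-(x + r)) (-(y + r)) r L s (-1 - j) (-1 - i) (win_mirror hW)
    (inBlk_mirror hL) (gap_mirror g) ⟨n, fun hc => hn (old_mirror' hc)⟩ (old_mirror hO) (by omega) (by omega)
    (by omega) hs
  refine ⟨Q, hQ, fun t ht => ?_⟩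
  rw [← hQ' t (by omega)]
  congr 1
  ring

/-- the walk to the left -/
theorem left_walk (σ : Sys τ v c) : ∃ (S : Set (ℕ → B)) (C : ℕ), S.Finite ∧
    ∀ (x y : ℤ) (r L s : ℕ) (i j : ℤ), (∀ t : ℕ, t < r → v (x + t) = v (y + t)) → InBlk c L x r →
      (∀ i' j', Gap τ v i' j' → i' < y + r → y ≤ j' → ∃ n, ¬ Old τ v c n i' j') →
      Old τ v c s i j → y ≤ i → i < y + r → L + C ≤ s → C * (r + 1) ≤ s ^ 2 →
      ∃ Q ∈ S, ∀ t : ℕ, y ≤ i - t → v (i - t) = Q t := by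
  obtain ⟨S, C, hS, hr⟩ := right_walk σ.mir.hN σ.mir.h σ.mir.hG σ.mir.hM σ.mir.hR
  refine ⟨S, C, hS, ?_⟩
  intro x y r L s i j hW hL hex hO h1 h2 hs hs2
  obtain ⟨Q, hQ, hQ'⟩ := hr (-(x + r)) (-(y + r)) r L s (-1 - j) (-1 - i) (win_mirror hW)
    (inBlk_mirror hL) (by
      intro i' j' g' hi' hj'
      have g'' := gap_mirror g'
      have e1 : (fun b => ((τ b).reverse).reverse) = τ := by funext b; simp
      have e2 : (fun n : ℤ => v (-1 - (-1 - n))) = v := by funext n; congr 1; ring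
      simp only [e1, e2] at g''
      obtain ⟨n, hn⟩ := hex (-1 - j') (-1 - i') g'' (by omega) (by omega)
      refine ⟨n, fun hc => hn ?_⟩
      have hc' := hc
      have e3 : i' = -1 - (-1 - i') := by ring
      have e4 : j' = -1 - (-1 - j') := by ring
      rw [e3, e4] at hc'
      exact old_mirror' hc') (old_mirror hO) (by omega) (by omega) hs hs2
  refine ⟨Q, hQ, fun t ht => ?_⟩
  rw [← hQ' t (by omega)]
  congr 1
  ring

/-- gluing of a left word and a right word -/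
def glue (N Q : ℕ → B) : ℤ → B := fun k => if 0 ≤ k then Q k.toNat else N (-1 - k).toNat

def glueSet (S : Set (ℕ → B)) : Set (ℤ → B) := Set.range (fun z : S × S => glue z.1.val z.2.val)

theorem glueSet_finite {S : Set (ℕ → B)} (hS : S.Finite) : (glueSet S).Finite := by
  have : Finite S := hS
  exact Set.finite_range _

theorem glue_good {S : Set (ℕ → B)} {y p : ℤ} {r : ℕ}
    (h1 : ∃ Q ∈ S, ∀ t : ℕ, p + t < y + r → v (p + t) = Q t)
    (h2 : ∃ N ∈ S, ∀ t : ℕ, y ≤ p - 1 - t → v (p - 1 - t) = N t) :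
    ∃ Ω ∈ glueSet S, ∀ t : ℕ, t < r → v (y + t) = Ω (y - p + t) := by
  obtain ⟨Q, hQ, hQ'⟩ := h1
  obtain ⟨N, hN, hN'⟩ := h2
  refine ⟨_, ⟨(⟨N, hN⟩, ⟨Q, hQ⟩), rfl⟩, fun t ht => ?_⟩
  simp only [glue]
  split
  · next hp =>
    rw [← hQ' (y - p + t).toNat (by omega)]
    congr 1
    omega
  · next hp =>
    rw [← hN' (-1 - (y - p + t)).toNat (by omega)]
    congr 1
    omega

/-- moving the old gap towards the window -/
theorem shift_right (σ : Sys τ v c) : ∃ S : Set (ℕ → B), S.Finite ∧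
    ∀ (d : ℕ) (y : ℤ) (r a : ℕ) (i j : ℤ), Old τ v c (a + d) i j → j < y → y ≤ j + d →
      1 ≤ a → 16 * (r + d + 1) ≤ a ^ 2 →
      (∃ j', y - d ≤ j' ∧ j' < y ∧ ∃ Q ∈ S, ∀ t : ℕ, j' + t < y + r → v (j' + t) = Q t) ∨
      (∃ i' j', Old τ v c a i' j' ∧ i' < y ∧ y ≤ j') := by
  classical
  obtain ⟨S, hS, hmw⟩ := σ.hM
  refine ⟨S, hS, ?_⟩
  intro d
  induction d with
  | zero => intro y r a i j hO h1 h2; omega
  | succ d ih =>
    intro y r a i j hO h1 h2 ha ha2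
    have g := hO.gap σ.hN σ.h
    have hlin : ll τ (v j) + rl τ (v j) + 1 ≤ (τ (v j)).length := by
      have h3 := LL_le_RR σ.hN σ.h g.gr
      unfold LL RR at h3
      have := σ.h.step j
      omega
    have hO1 : Old τ v c (a + d + 1) i j := hO
    rcases hlin.lt_or_eq with hnl | hlin
    · left
      refine ⟨j, by push_cast at h2; omega, h1, ?_⟩
      obtain ⟨Q, hQ, hQ'⟩ := hmw (a + d) i j hO1 hnl (y + r - j).toNat (by
        have h4 : (y + r - j).toNat ≤ r + (d + 1) := by omega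
        have h5 : a ^ 2 ≤ (a + d) * (a + d) := by nlinarith
        omega)
      exact ⟨Q, hQ, fun t ht => hQ' t (by omega)⟩
    · obtain ⟨j', g'⟩ : ∃ j', Gap τ v j j' := by
        obtain ⟨w, hw1, hw2⟩ := σ.hR j
        have hex : ∃ k : ℕ, Gr τ (v (j + 1 + k)) := by
          refine ⟨(w - j - 1).toNat, ?_⟩
          have e1 : j + 1 + (((w - j - 1).toNat : ℕ) : ℤ) = w := by omega
          rw [e1]
          exact hw2
        refine ⟨j + 1 + (Nat.find hex : ℕ), by omega, g.gr, Nat.find_spec hex, ?_⟩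
        intro z hz1 hz2 hz3
        refine Nat.find_min hex (m := (z - j - 1).toNat) (by omega) ?_
        have e1 : j + 1 + (((z - j - 1).toNat : ℕ) : ℤ) = z := by omega
        rw [e1]
        exact hz3
      have hO2 := old_right σ.hN σ.h σ.hR hO1 hlin g'
      have hjj := g'.lt
      rcases lt_or_ge j' y with hj' | hj'
      · rcases ih y r a j j' hO2 hj' (by push_cast at h2; omega) ha (by
          have : 16 * (r + (d + 1) + 1) = 16 * (r + d + 1) + 16 := by ring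
          omega) with ⟨j'', h3, h4, h5⟩ | h3
        · left
          exact ⟨j'', by push_cast; omega, h4, h5⟩
        · exact Or.inr h3
      · right
        exact ⟨j, j', hO2.mono σ.hN σ.h (by omega), h1, hj'⟩

/-- the window lies inside a gap -/
theorem pure_case (σ : Sys τ v c) : ∃ S : Set (ℕ → B), S.Finite ∧
    ∀ (y : ℤ) (r : ℕ) (i j : ℤ), Gap τ v i j → (∃ n, ¬ Old τ v c n i j) → i < y → y + r ≤ j →
      ∃ p, y ≤ p ∧ p ≤ y + r ∧ (∃ Q ∈ S, ∀ t : ℕ, p + t < y + r → v (p + t) = Q t) ∧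
        (∃ N ∈ S, ∀ t : ℕ, y ≤ p - 1 - t → v (p - 1 - t) = N t) := by
  obtain ⟨S, hS, hgw⟩ := σ.hG
  refine ⟨S ∪ {fun _ => v 0}, hS.union (Set.finite_singleton _), ?_⟩
  intro y r i j g hfin h1 h2
  obtain ⟨n, hn⟩ := hfin
  obtain ⟨A, _, hA, y₀, t₀, t₀', hAge⟩ := exact_of_fin σ.hN σ.h g hn
  obtain ⟨p, hp1, hp2, hp3, hp4, hp5⟩ := hgw A y₀ t₀ t₀' i j hAge
  rcases le_or_gt p y with h3 | h3
  · refine ⟨y, le_rfl, by omega, ?_, ⟨fun _ => v 0, Or.inr rfl, fun t ht => by omega⟩⟩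
    obtain ⟨Q, hQ, hQ'⟩ := hp4 y h3 (by omega)
    exact ⟨Q, Or.inl hQ, fun t ht => hQ' t (by omega)⟩
  · rcases le_or_gt (y + r) p with h4 | h4
    · refine ⟨y + r, by omega, le_rfl, ⟨fun _ => v 0, Or.inr rfl, fun t ht => by omega⟩, ?_⟩
      obtain ⟨Q, hQ, hQ'⟩ := hp5 (y + r) (by omega) h4
      exact ⟨Q, Or.inl hQ, fun t ht => hQ' t (by omega)⟩
    · refine ⟨p, h3.le, h4.le, ?_, ?_⟩
      · obtain ⟨Q, hQ, hQ'⟩ := hp4 p le_rfl hp2
        exact ⟨Q, Or.inl hQ, fun t ht => hQ' t (by omega)⟩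
      · obtain ⟨Q, hQ, hQ'⟩ := hp5 p hp1 le_rfl
        exact ⟨Q, Or.inl hQ, fun t ht => hQ' t (by omega)⟩

/-- the half of TWO AGES where the right end of the gap is to the left of the right end of the
window -/
theorem two_ages_half (σ : Sys τ v c) (K : ℕ) : ∃ (S : Set (ℤ → B)) (C : ℕ), S.Finite ∧
    ∀ (x y : ℤ) (r L a : ℕ) (i j : ℤ), (∀ t : ℕ, t < r → v (x + t) = v (y + t)) → InBlk c L x r →
    (∀ i' j' : ℤ, Gap τ v i' j' → i' < y + r → y ≤ j' → ∃ n, ¬ Old τ v c n i' j') →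
    Old τ v c a i j → y - K ≤ j → (i < y ∨ j < y + r) → L + C ≤ a → C * (r + 1) ≤ a ^ 2 →
    ∃ Ω ∈ S, ∃ α : ℤ, -((r : ℤ) + C) ≤ α ∧ α ≤ C ∧ ∀ t : ℕ, t < r → v (y + t) = Ω (α + t) := by
  classical
  obtain ⟨S₁, C₁, hS₁, hrw⟩ := right_walk σ.hN σ.h σ.hG σ.hM σ.hR
  obtain ⟨S₂, C₂, hS₂, hlw⟩ := left_walk σ
  obtain ⟨S₃, C₃, hS₃, hrl⟩ := runcmp_left σ
  obtain ⟨S₄, hS₄, hpc⟩ := pure_case σ
  obtain ⟨S₅, hS₅, hsr⟩ := shift_right σ
  -- left words read from `i` must be shifted by one letter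
  set S₂' : Set (ℕ → B) := (fun Q : ℕ → B => fun t : ℕ => Q (t + 1)) '' S₂ with hS₂'
  set S : Set (ℕ → B) := pre (3 * tl τ + 1) S₁ ∪ S₂' ∪ S₃ ∪ S₄ ∪ S₅ ∪ {fun _ => v 0} with hSdef
  have hSf : S.Finite := by
    refine ((((((pre_finite _ hS₁).union (hS₂.image _)).union hS₃).union hS₄).union hS₅).union
      (Set.finite_singleton _))
  set M : ℕ := C₁ + C₂ + C₃ + 3 * tl τ + 16 * (K + 2) with hMdef
  refine ⟨glueSet S, 4 * M + 2 * K + 64, glueSet_finite hSf, ?_⟩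
  intro x y r L a i j hW hL hex hO h1 h2 hs hs2
  have hsub3 : S₃ ⊆ S := fun Q hQ => Or.inl (Or.inl (Or.inl (Or.inr hQ)))
  have hsub4 : S₄ ⊆ S := fun Q hQ => Or.inl (Or.inl (Or.inr hQ))
  have hsub5 : S₅ ⊆ S := fun Q hQ => Or.inl (Or.inr hQ)
  have hsub1 : pre (3 * tl τ + 1) S₁ ⊆ S := fun Q hQ => Or.inl (Or.inl (Or.inl (Or.inl (Or.inl hQ))))
  have hsub2 : S₂' ⊆ S := fun Q hQ => Or.inl (Or.inl (Or.inl (Or.inl (Or.inr hQ))))
  have hex' : ∀ i' j' : ℤ, Gap τ v i' j' → i' < y + r → y ≤ j' → ∃ n, ¬ Old τ v c n i' j' :=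
    hex
  -- numeric facts
  have hnum : M * (r + 1) ≤ (a - K) ^ 2 := by
    have h3 : a ≤ 2 * (a - K) := by omega
    have h4 : a ^ 2 ≤ (2 * (a - K)) ^ 2 := Nat.pow_le_pow_left h3 2
    have h5 : (2 * (a - K)) ^ 2 = 4 * (a - K) ^ 2 := by ring
    have h6 : (4 * M + 2 * K + 64) * (r + 1) = 4 * (M * (r + 1)) + (2 * K + 64) * (r + 1) := by ring
    omega
  have hnum' : M * (r + 1) ≤ a ^ 2 := by
    have h4 : (a - K) ^ 2 ≤ a ^ 2 := Nat.pow_le_pow_left (by omega) 2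
    omega
  have hC1 : C₁ * (r + 1) ≤ M * (r + 1) := Nat.mul_le_mul_right _ (by omega)
  have hC2 : C₂ * (r + 1) ≤ M * (r + 1) := Nat.mul_le_mul_right _ (by omega)
  -- the two cases with the left end of the gap to the left of the window
  have key : ∀ (a' : ℕ) (i' j' : ℤ), Old τ v c a' i' j' → i' < y → y ≤ j' → L + M ≤ a' →
      M * (r + 1) ≤ a' ^ 2 →
      ∃ Ω ∈ glueSet S, ∃ α : ℤ, -((r : ℤ) + (4 * M + 2 * K + 64 : ℕ)) ≤ α ∧
        α ≤ (4 * M + 2 * K + 64 : ℕ) ∧ ∀ t : ℕ, t < r → v (y + t) = Ω (α + t) := by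
    intro a' i' j' hO' h3 h4 h5 h6
    have g' := hO'.gap σ.hN σ.h
    rcases lt_or_ge j' (y + r) with h7 | h7
    · obtain ⟨Q, hQ, hQ'⟩ := hrw x y r L a' i' j' hW hL hex' hO' h4 h7 (by omega) (by omega)
      obtain ⟨N, hN, hN'⟩ := hrl x y r L a' i' j' hW hL g' (hex' i' j' g' (by omega) h4) hO' h4 h7 h3
        (by omega)
      obtain ⟨Ω, hΩ, hΩ'⟩ := glue_good (S := S) (v := v) (y := y) (p := j') (r := r)
        ⟨Q, hsub1 (pre_mono hQ), hQ'⟩ ⟨N, hsub3 hN, hN'⟩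
      exact ⟨Ω, hΩ, y - j', by omega, by omega, hΩ'⟩
    · obtain ⟨p, hp1, hp2, ⟨Q, hQ, hQ'⟩, ⟨N, hN, hN'⟩⟩ :=
        hpc y r i' j' g' (hex' i' j' g' (by omega) h4) h3 h7
      obtain ⟨Ω, hΩ, hΩ'⟩ := glue_good (S := S) (v := v) (y := y) (p := p) (r := r)
        ⟨Q, hsub4 hQ, hQ'⟩ ⟨N, hsub4 hN, hN'⟩
      exact ⟨Ω, hΩ, y - p, by omega, by omega, hΩ'⟩
  rcases lt_or_ge j y with hjy | hjy
  · obtain ⟨b, rfl⟩ : ∃ b, a = b + K := ⟨a - K, by omega⟩
    rw [Nat.add_sub_cancel] at hnum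
    have hb : 16 * (r + K + 1) ≤ b ^ 2 := by
      have h3 : 16 * (r + K + 1) ≤ 16 * (K + 2) * (r + 1) := by nlinarith
      have h4 : 16 * (K + 2) * (r + 1) ≤ M * (r + 1) := Nat.mul_le_mul_right _ (by omega)
      omega
    rcases hsr K y r b i j hO hjy (by omega) (by omega) hb with ⟨j', h3, h4, Q, hQ, hQ'⟩ |
      ⟨i', j', hO', h3, h4⟩
    · obtain ⟨Ω, hΩ, hΩ'⟩ := glue_good (S := S) (v := v) (y := y) (p := j') (r := r)
        ⟨Q, hsub5 hQ, hQ'⟩ ⟨fun _ => v 0, Or.inr rfl, fun t ht => by omega⟩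
      exact ⟨Ω, hΩ, y - j', by omega, by omega, hΩ'⟩
    · exact key b i' j' hO' h3 h4 (by omega) hnum
  · rcases lt_or_ge i y with hiy | hiy
    · exact key a i j hO hiy hjy (by omega) hnum'
    · have hjr : j < y + r := by omega
      have g := hO.gap σ.hN σ.h
      have hij := g.lt
      -- both ends of the gap in the window
      obtain ⟨m, hm1, hm2⟩ := hL
      have gx := gap_transfer σ.hN σ.h hW g hiy hjr
      obtain ⟨e, he, y₁, t₁, t₁', hT⟩ := gap_ageT σ.hN σ.h gx (by omega : (c^[L]) m ≤ _) (by omega)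
      have hvt : ∀ z : ℤ, y ≤ z → z < y + r → v (z - y + x) = v z := by
        intro z hz1 hz2
        have := hW (z - y).toNat (by omega)
        have e1 : x + (((z - y).toNat : ℕ) : ℤ) = z - y + x := by omega
        have e2 : y + (((z - y).toNat : ℕ) : ℤ) = z := by omega
        rwa [e1, e2] at this
      obtain ⟨b, rfl⟩ : ∃ b, a = b + 1 := ⟨a - 1, by omega⟩
      have hm := (match_gap σ.hN σ.h hT hO (hvt i hiy (by omega)) (hvt j (by omega) hjr) (by ring)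
        (by omega)).2
      obtain ⟨Q, hQ, hQ'⟩ := hrw x y r L (b + 1) i j hW ⟨m, hm1, hm2⟩ hex' hO hjy hjr (by omega)
        (by omega)
      obtain ⟨N, hN, hN'⟩ := hlw x y r L (b + 1) i j hW ⟨m, hm1, hm2⟩ hex' hO hiy (by omega) (by omega)
        (by omega)
      obtain ⟨Q₂, hQ₂, hQ₂'⟩ := pre_good (D := 3 * tl τ + 1) (V := v) (p := i) (q := j) (z := y + r)
        (by omega) (by push_cast; omega) ⟨Q, hQ, hQ'⟩
      obtain ⟨Ω, hΩ, hΩ'⟩ := glue_good (S := S) (v := v) (y := y) (p := i) (r := r)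
        ⟨Q₂, hsub1 hQ₂, hQ₂'⟩ ⟨fun t => N (t + 1), hsub2 ⟨N, hN, rfl⟩, fun t ht => by
          have h3 := hN' (t + 1) (by push_cast; omega)
          simp only
          rw [← h3]
          congr 1
          push_cast
          ring⟩
      exact ⟨Ω, hΩ, y - i, by omega, by omega, hΩ'⟩

/-- **TWO AGES** -/
theorem two_ages (σ : Sys τ v c) : TwoAges τ v c := by
  classical
  intro K
  obtain ⟨S, C, hS, hh⟩ := two_ages_half σ K
  obtain ⟨S', C', hS', hh'⟩ := two_ages_half σ.mir (K + 1)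
  have hfin : Finite ↥(S ∪ (fun Ω : ℤ → B => fun k : ℤ => Ω (-1 - k)) '' S') :=
    hS.union (hS'.image _)
  refine ⟨↥(S ∪ (fun Ω : ℤ → B => fun k : ℤ => Ω (-1 - k)) '' S'), hfin, fun q => q.val, C + C', ?_⟩
  intro x y r L a i j hW hL hex hO h1 h2 hs hs2
  rw [win_eq_iff] at hW
  have hs3 : C * (r + 1) ≤ a ^ 2 := by
    have : (C + C') * (r + 1) = C * (r + 1) + C' * (r + 1) := by ring
    omega
  have hs4 : C' * (r + 1) ≤ a ^ 2 := by
    have : (C + C') * (r + 1) = C * (r + 1) + C' * (r + 1) := by ring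
    omega
  by_cases hcase : i < y ∨ j < y + r
  · obtain ⟨Ω, hΩ, α, hα1, hα2, hΩ'⟩ := hh x y r L a i j hW hL
      (fun i' j' g' h3 h4 => hex i' j' g' (by omega) (by omega)) hO h1 hcase (by omega) hs3
    refine ⟨⟨Ω, Or.inl hΩ⟩, α, ?_, by push_cast; omega, by push_cast; omega⟩
    rw [win_eq_iff]
    exact hΩ'
  · push Not at hcase
    obtain ⟨hc1, hc2⟩ := hcase
    have g := hO.gap σ.hN σ.h
    have hij := g.lt
    obtain ⟨Ω, hΩ, α, hα1, hα2, hΩ'⟩ := hh' (-(x + r)) (-(y + r)) r L a (-1 - j) (-1 - i) (win_mirror hW)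
      (inBlk_mirror hL) (by
        intro i' j' g' hi' hj'
        have g'' := gap_mirror g'
        have e1 : (fun b => ((τ b).reverse).reverse) = τ := by funext b; simp
        have e2 : (fun n : ℤ => v (-1 - (-1 - n))) = v := by funext n; congr 1; ring
        simp only [e1, e2] at g''
        obtain ⟨n, hn⟩ := hex (-1 - j') (-1 - i') g'' (by omega) (by omega)
        refine ⟨n, fun hc => hn ?_⟩
        have hc' := hc
        have e3 : i' = -1 - (-1 - i') := by ring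
        have e4 : j' = -1 - (-1 - j') := by ring
        rw [e3, e4] at hc'
        exact old_mirror' hc') (old_mirror hO) (by push_cast; omega) (Or.inr (by omega)) (by omega) hs4
    refine ⟨⟨fun k => Ω (-1 - k), Or.inr ⟨Ω, hΩ, rfl⟩⟩, -α - r, ?_, by push_cast; omega, by push_cast; omega⟩
    rw [win_eq_iff]
    intro t ht
    have h3 := hΩ' (r - 1 - t) (by omega)
    have e1 : -1 - (-(y + r) + ((r - 1 - t : ℕ) : ℤ)) = y + t := by omega
    rw [e1] at h3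
    rw [h3]
    simp only
    congr 1
    omega

end Pool.Agent.H83.MW
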