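import Pool.Agent.H83.MW.LowerAbs

/-! # MP_1fe246_co: growing letters, gaps and their children (normalised morphism) -/

set_option autoImplicit false
set_option linter.unusedSectionVars false

namespace Pool.Agent.H83.MW

open Pool.Agent.H68.MW

/-- growing letters of a normalised morphism -/
def Gr {B : Type} (τ : B → List B) (x : B) : Prop := τ x ≠ [x]

open Classical in
/-- number of leading bounded letters of `τ x` -/
noncomputable def ll {B : Type} (τ : B → List B) (x : B) : ℕ := (τ x).findIdx (fun y => decide (Gr τ y))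

open Classical in
/-- number of trailing bounded letters of `τ x` -/
noncomputable def rl {B : Type} (τ : B → List B) (x : B) : ℕ :=
  (τ x).reverse.findIdx (fun y => decide (Gr τ y))

/-- first growing letter of `τ x` -/
noncomputable def lf {B : Type} (τ : B → List B) (x : B) : B := ((τ x)[ll τ x]?).getD x

/-- last growing letter of `τ x` -/
noncomputable def rf {B : Type} (τ : B → List B) (x : B) : B := ((τ x).reverse[rl τ x]?).getD x

/-- normalised morphisms -/
structure Nrm {B : Type} (τ : B → List B) : Prop where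
  dich : ∀ x, Gr τ x → 2 ≤ (τ x).length ∧ ∃ y ∈ τ x, Gr τ y
  idL : ∀ x, Gr τ x → lf τ (lf τ x) = lf τ x
  idR : ∀ x, Gr τ x → rf τ (rf τ x) = rf τ x

variable {B : Type} {τ : B → List B} {v : ℤ → B} {c : ℤ → ℤ}

theorem ll_lt (hN : Nrm τ) {x : B} (hx : Gr τ x) : ll τ x < (τ x).length := by
  classical
  obtain ⟨_, y, hy, hg⟩ := hN.dich x hx
  unfold ll
  exact List.findIdx_lt_length_of_exists ⟨y, hy, by simpa using hg⟩

theorem rl_lt (hN : Nrm τ) {x : B} (hx : Gr τ x) : rl τ x < (τ x).length := by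
  classical
  obtain ⟨_, y, hy, hg⟩ := hN.dich x hx
  unfold rl
  rw [← List.length_reverse (as := τ x)]
  exact List.findIdx_lt_length_of_exists ⟨y, by simpa using hy, by simpa using hg⟩

theorem gr_ll (hN : Nrm τ) {x : B} (hx : Gr τ x) : Gr τ ((τ x)[ll τ x]'(ll_lt hN hx)) := by
  classical
  have h := List.findIdx_getElem (xs := τ x) (p := fun y => decide (Gr τ y)) (w := ll_lt hN hx)
  simp only [decide_eq_true_eq] at h
  exact h

theorem not_gr_of_lt_ll {x : B} {i : ℕ} (h : i < ll τ x) (h' : i < (τ x).length) :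
    ¬ Gr τ ((τ x)[i]) := by
  classical
  have := List.not_of_lt_findIdx (xs := τ x) (p := fun y => decide (Gr τ y)) h
  simpa using this

theorem gr_rl (hN : Nrm τ) {x : B} (hx : Gr τ x) :
    Gr τ ((τ x)[(τ x).length - 1 - rl τ x]'(by have := rl_lt hN hx; omega)) := by
  classical
  have h := List.findIdx_getElem (xs := (τ x).reverse) (p := fun y => decide (Gr τ y))
    (w := by rw [List.length_reverse]; exact rl_lt hN hx)
  simp only [List.getElem_reverse, decide_eq_true_eq] at h
  exact h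

theorem not_gr_of_lt_rl {x : B} {i : ℕ} (h' : i < (τ x).length)
    (h : (τ x).length - 1 - i < rl τ x) : ¬ Gr τ ((τ x)[i]) := by
  classical
  have := List.not_of_lt_findIdx (xs := (τ x).reverse) (p := fun y => decide (Gr τ y))
    (i := (τ x).length - 1 - i) h
  simp only [List.getElem_reverse, decide_eq_false_iff_not] at this
  have e : (τ x).length - 1 - ((τ x).length - 1 - i) = i := by omega
  simp only [e] at this
  exact this

theorem lf_eq (hN : Nrm τ) {x : B} (hx : Gr τ x) : lf τ x = (τ x)[ll τ x]'(ll_lt hN hx) := by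
  unfold lf
  rw [List.getElem?_eq_getElem (ll_lt hN hx)]
  rfl

theorem rf_eq (hN : Nrm τ) {x : B} (hx : Gr τ x) :
    rf τ x = (τ x)[(τ x).length - 1 - rl τ x]'(by have := rl_lt hN hx; omega) := by
  unfold rf
  rw [List.getElem?_eq_getElem (by rw [List.length_reverse]; exact rl_lt hN hx)]
  simp

theorem gr_lf (hN : Nrm τ) {x : B} (hx : Gr τ x) : Gr τ (lf τ x) := by
  rw [lf_eq hN hx]; exact gr_ll hN hx

theorem gr_rf (hN : Nrm τ) {x : B} (hx : Gr τ x) : Gr τ (rf τ x) := by
  rw [rf_eq hN hx]; exact gr_rl hN hx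

/-- first growing position of the block of `i` -/
noncomputable def LL (τ : B → List B) (v : ℤ → B) (c : ℤ → ℤ) (i : ℤ) : ℤ := c i + ll τ (v i)

/-- last growing position of the block of `i` -/
noncomputable def RR (τ : B → List B) (v : ℤ → B) (c : ℤ → ℤ) (i : ℤ) : ℤ :=
  c (i + 1) - 1 - rl τ (v i)

section
variable (hN : Nrm τ) (h : Img τ v v c)
include hN h

theorem v_LL {i : ℤ} (hi : Gr τ (v i)) : v (LL τ v c i) = lf τ (v i) := by
  rw [lf_eq hN hi]
  exact h.val i _ (ll_lt hN hi)

theorem v_RR {i : ℤ} (hi : Gr τ (v i)) : v (RR τ v c i) = rf τ (v i) := by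
  rw [rf_eq hN hi]
  have h1 := rl_lt hN hi
  rw [← h.val i _ (by omega)]
  congr 1
  unfold RR
  rw [h.step i]
  omega

theorem c_lt_LL {i : ℤ} (hi : Gr τ (v i)) : c i ≤ LL τ v c i ∧ LL τ v c i < c (i + 1) := by
  have h1 := ll_lt hN hi
  have h2 := h.step i
  unfold LL
  omega

theorem c_lt_RR {i : ℤ} (hi : Gr τ (v i)) : c i ≤ RR τ v c i ∧ RR τ v c i < c (i + 1) := by
  have h1 := rl_lt hN hi
  have h2 := h.step i
  unfold RR
  omega

theorem not_gr_LL {i z : ℤ} (hi : Gr τ (v i)) (h1 : c i ≤ z) (h2 : z < LL τ v c i) :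
    ¬ Gr τ (v z) := by
  have h3 := ll_lt hN hi
  unfold LL at h2
  have h4 := not_gr_of_lt_ll (τ := τ) (x := v i) (i := (z - c i).toNat) (by omega) (by omega)
  rw [← h.val i _ (by omega)] at h4
  have e : c i + (((z - c i).toNat : ℕ) : ℤ) = z := by omega
  rwa [e] at h4

theorem not_gr_RR {i z : ℤ} (hi : Gr τ (v i)) (h1 : RR τ v c i < z) (h2 : z < c (i + 1)) :
    ¬ Gr τ (v z) := by
  have h3 := rl_lt hN hi
  have h5 := h.step i
  unfold RR at h1
  have h4 := not_gr_of_lt_rl (τ := τ) (x := v i) (i := (z - c i).toNat) (by omega) (by omega)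
  rw [← h.val i _ (by omega)] at h4
  have e : c i + (((z - c i).toNat : ℕ) : ℤ) = z := by omega
  rwa [e] at h4

theorem LL_le_RR {i : ℤ} (hi : Gr τ (v i)) : LL τ v c i ≤ RR τ v c i := by
  by_contra hcon
  push Not at hcon
  have h1 := c_lt_RR hN h hi
  have := not_gr_LL hN h hi h1.1 hcon
  rw [v_RR hN h hi] at this
  exact this (gr_rf hN hi)

end

/-- bounded letters are fixed -/
theorem cut_bounded (h : Img τ v v c) {i : ℤ} (hi : ¬ Gr τ (v i)) :
    c (i + 1) = c i + 1 ∧ v (c i) = v i := by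
  unfold Gr at hi
  push Not at hi
  have h1 := h.step i
  rw [hi] at h1
  refine ⟨by simpa using h1, ?_⟩
  have h2 := h.val i 0 (by rw [hi]; simp)
  simp only [hi] at h2
  simpa using h2

theorem cut_run (h : Img τ v v c) {i : ℤ} {n : ℕ} (hi : ∀ t : ℕ, t < n → ¬ Gr τ (v (i + t))) :
    (∀ t : ℕ, t ≤ n → c (i + t) = c i + t) ∧ ∀ t : ℕ, t < n → v (c i + t) = v (i + t) := by
  have h1 : ∀ t : ℕ, t ≤ n → c (i + t) = c i + t := by
    intro t ht
    induction t with
    | zero => simp
    | succ t ih =>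
      have h2 := (cut_bounded h (hi t (by omega))).1
      have e : i + ((t + 1 : ℕ) : ℤ) = i + t + 1 := by push_cast; ring
      rw [e, h2, ih (by omega)]
      push_cast
      ring
  refine ⟨h1, fun t ht => ?_⟩
  have := (cut_bounded h (hi t ht)).2
  rwa [h1 t ht.le] at this

/-- consecutive growing positions -/
structure Gap (τ : B → List B) (v : ℤ → B) (i j : ℤ) : Prop where
  lt : i < j
  gl : Gr τ (v i)
  gr : Gr τ (v j)
  bd : ∀ z, i < z → z < j → ¬ Gr τ (v z)

theorem Gap.cut (h : Img τ v v c) {i j : ℤ} (g : Gap τ v i j) :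
    c j = c (i + 1) + (j - i - 1) ∧ ∀ t : ℤ, 0 ≤ t → t < j - i - 1 → v (c (i + 1) + t) = v (i + 1 + t) := by
  obtain ⟨n, hn⟩ : ∃ n : ℕ, j = i + 1 + n := ⟨(j - i - 1).toNat, by have := g.lt; omega⟩
  have h1 := cut_run h (i := i + 1) (n := n) (fun t ht => g.bd _ (by omega) (by omega))
  constructor
  · rw [hn, h1.1 n le_rfl]; ring
  · intro t ht0 ht
    obtain ⟨t, rfl⟩ := Int.eq_ofNat_of_zero_le ht0
    exact h1.2 t (by omega)

/-- the child of a gap -/
theorem Gap.child (hN : Nrm τ) (h : Img τ v v c) {i j : ℤ} (g : Gap τ v i j) :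
    Gap τ v (RR τ v c i) (LL τ v c j) ∧
      LL τ v c j - RR τ v c i - 1 = rl τ (v i) + (j - i - 1) + ll τ (v j) := by
  have h1 := g.cut h
  have h2 := c_lt_RR hN h g.gl
  have h3 := c_lt_LL hN h g.gr
  have h4 : c (i + 1) ≤ c j := h.strictMono.monotone (by have := g.lt; omega)
  refine ⟨⟨by omega, by rw [v_RR hN h g.gl]; exact gr_rf hN g.gl,
    by rw [v_LL hN h g.gr]; exact gr_lf hN g.gr, ?_⟩, ?_⟩
  · intro z hz1 hz2
    by_cases hz3 : z < c (i + 1)
    · exact not_gr_RR hN h g.gl hz1 hz3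
    · by_cases hz4 : z < c j
      · have := h1.2 (z - c (i + 1)) (by omega) (by omega)
        have e : c (i + 1) + (z - c (i + 1)) = z := by ring
        rw [e] at this
        rw [this]
        exact g.bd _ (by omega) (by omega)
      · exact not_gr_LL hN h g.gr (by omega) hz2
  · unfold LL RR
    rw [h1.1]
    ring

/-- every growing position lies in the block of a growing position -/
theorem gr_parent (hN : Nrm τ) (h : Img τ v v c) {i m : ℤ} (hi : Gr τ (v i)) (h1 : c m ≤ i)
    (h2 : i < c (m + 1)) : Gr τ (v m) ∧ LL τ v c m ≤ i ∧ i ≤ RR τ v c m := by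
  have hm : Gr τ (v m) := by
    by_contra hcon
    have h3 := cut_bounded h hcon
    have : i = c m := by omega
    rw [this, h3.2] at hi
    exact hcon hi
  refine ⟨hm, ?_, ?_⟩
  · by_contra hcon
    exact not_gr_LL hN h hm h1 (by omega) hi
  · by_contra hcon
    exact not_gr_RR hN h hm (by omega) h2 hi

/-- a gap is internal to a block, or it is the child of a gap -/
theorem Gap.parent (hN : Nrm τ) (h : Img τ v v c) {i j : ℤ} (g : Gap τ v i j) :
    (∃ m, c m ≤ i ∧ j < c (m + 1) ∧ Gr τ (v m)) ∨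
      ∃ i' j', Gap τ v i' j' ∧ i = RR τ v c i' ∧ j = LL τ v c j' := by
  obtain ⟨i', hi1, hi2⟩ := h.exists_block i
  obtain ⟨j', hj1, hj2⟩ := h.exists_block j
  have hi' := gr_parent hN h g.gl hi1 hi2
  have hj' := gr_parent hN h g.gr hj1 hj2
  have hle : i' ≤ j' := by
    by_contra hcon
    have := h.strictMono.monotone (show j' + 1 ≤ i' by omega)
    have := g.lt
    omega
  rcases eq_or_lt_of_le hle with heq | hlt
  · left
    subst heq
    exact ⟨i', hi1, hj2, hi'.1⟩
  · right
    have hcc : c (i' + 1) ≤ c j' := h.strictMono.monotone (by omega)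
    refine ⟨i', j', ⟨hlt, hi'.1, hj'.1, ?_⟩, ?_, ?_⟩
    · intro z hz1 hz2 hz3
      have h3 := c_lt_LL hN h hz3
      have h4 : c (i' + 1) ≤ c z := h.strictMono.monotone (by omega)
      have h5 : c (z + 1) ≤ c j' := h.strictMono.monotone (by omega)
      refine g.bd (LL τ v c z) (by omega) (by omega) ?_
      rw [v_LL hN h hz3]
      exact gr_lf hN hz3
    · by_contra hne
      have h3 : i < RR τ v c i' := lt_of_le_of_ne hi'.2.2 hne
      have h4 := c_lt_RR hN h hi'.1
      refine g.bd (RR τ v c i') h3 (by omega) ?_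
      rw [v_RR hN h hi'.1]
      exact gr_rf hN hi'.1
    · by_contra hne
      have h3 : LL τ v c j' < j := lt_of_le_of_ne hj'.2.1 (Ne.symm hne)
      have h4 := c_lt_LL hN h hj'.1
      refine g.bd (LL τ v c j') (by omega) h3 ?_
      rw [v_LL hN h hj'.1]
      exact gr_lf hN hj'.1

end Pool.Agent.H83.MW
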