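import Pool.Agent.H83.MW.Walk

/-! # MP_1fe246_co: the words of gaps (module GAPWORD) -/

set_option autoImplicit false
set_option linter.unusedSectionVars false

namespace Pool.Agent.H83.MW

open Pool.Agent.H68.MW Pool.Agent.H88.MW

variable {B : Type} [Fintype B] {τ : B → List B} {v : ℤ → B} {c : ℤ → ℤ}

/-- the set of shifts of an eventually periodic sequence is finite -/
theorem shifts_finite {B : Type} (R : ℕ → B) (n₀ π : ℕ) (hπ : 0 < π) (hR : ∀ n, n₀ ≤ n → R (n + π) = R n) :
    (Set.range (fun o : ℕ => fun k : ℕ => R (o + k))).Finite := by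
  have key : ∀ o : ℕ, ∃ o' < n₀ + π, (fun k : ℕ => R (o' + k)) = fun k : ℕ => R (o + k) := by
    intro o
    induction o using Nat.strong_induction_on with
    | _ o ih =>
      rcases lt_or_ge o (n₀ + π) with h | h
      · exact ⟨o, h, rfl⟩
      · obtain ⟨o', h1, h2⟩ := ih (o - π) (by omega)
        refine ⟨o', h1, ?_⟩
        rw [h2]
        funext k
        have := hR (o - π + k) (by omega)
        rw [← this]
        congr 1
        omega
  refine ((Finset.range (n₀ + π)).finite_toSet.image (fun o : ℕ => fun k : ℕ => R (o + k))).subset ?_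
  rintro _ ⟨o, rfl⟩
  obtain ⟨o', h1, h2⟩ := key o
  exact ⟨o', by simpa using h1, h2⟩

/-- the periodic word `lam x lam x ...` -/
noncomputable def perL (τ : B → List B) (x : B) (t : ℕ) : B := ((lam τ x)[t % (ll τ x)]?).getD x

theorem perL_mul {x : B} (d k : ℕ) : perL τ x (d * ll τ x + k) = perL τ x k := by
  unfold perL
  rw [Nat.mul_add_mod_self_right]

/-- the right word of a type -/
noncomputable def RT (τ : B → List B) (y : B) (t t' : ℕ) (n : ℕ) : B :=
  if n < (runW τ y t t' 1).length then ((runW τ y t t' 1)[n]?).getD y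
  else perL τ (lf τ (lt' τ y t')) (n - (runW τ y t t' 1).length)

theorem RT_shifts (y : B) (t t' : ℕ) : (Set.range (fun o : ℕ => fun k : ℕ => RT τ y t t' (o + k))).Finite := by
  set x := lf τ (lt' τ y t') with hx
  refine shifts_finite _ (runW τ y t t' 1).length (if ll τ x = 0 then 1 else ll τ x) (by split <;> omega) ?_
  intro n hn
  have hd : ∀ m, (runW τ y t t' 1).length ≤ m →
      RT τ y t t' m = perL τ x (m - (runW τ y t t' 1).length) := by
    intro m hm
    unfold RT
    rw [if_neg (by omega), ← hx]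
  rw [hd n hn, hd _ (by omega)]
  by_cases h0 : ll τ x = 0
  · have h1 : lam τ x = [] := by unfold lam; rw [h0]; simp
    unfold perL
    rw [h1]
    simp
  · rw [if_neg h0]
    have h1 := perL_mul (τ := τ) (x := x) 1 (n - (runW τ y t t' 1).length)
    rw [← h1]
    congr 1
    omega

/-- the word of an age zero gap, extended -/
noncomputable def R0 (τ : B → List B) (y : B) (t t' : ℕ) (n : ℕ) : B := ((runW τ y t t' 0)[n]?).getD y

theorem R0_shifts (y : B) (t t' : ℕ) : (Set.range (fun o : ℕ => fun k : ℕ => R0 τ y t t' (o + k))).Finite := by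
  refine shifts_finite _ (runW τ y t t' 0).length 1 (by omega) ?_
  intro n hn
  unfold R0
  rw [List.getElem?_eq_none (by omega), List.getElem?_eq_none (by omega)]

/-- leftward periodic words -/
noncomputable def NL (τ : B → List B) (x : B) (e : ℕ) (k : ℕ) : B := perR τ x (e + k * (rl τ x - 1))

section
variable (hN : Nrm τ) (h : Img τ v v c)
include hN h

theorem AgeT.old {a : ℕ} {y : B} {t t' : ℕ} {i j : ℤ} (hA : AgeT τ v c a y t t' i j) :
    Old τ v c a i j := by
  obtain ⟨m, _, _, _, g, rfl, rfl⟩ := hA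
  exact ⟨_, _, g, rfl, rfl⟩

theorem AgeT.valid {a : ℕ} {y : B} {t t' : ℕ} {i j : ℤ} (hA : AgeT τ v c a y t t' i j) :
    t < tl τ ∧ t' < tl τ ∧ Gr τ (lt' τ y t) ∧ Gr τ (lt' τ y t') := by
  obtain ⟨m', hm', htt, ht', g', _, _⟩ := hA
  have h5 := length_le_tl τ y
  refine ⟨by omega, by omega, ?_, ?_⟩
  · have h6 := g'.gl
    rw [h.val m' t (by rw [hm']; omega)] at h6
    simp only [hm'] at h6
    unfold lt'
    rw [List.getElem?_eq_getElem (by omega)]
    exact h6
  · have h6 := g'.gr
    rw [h.val m' t' (by rw [hm']; omega)] at h6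
    simp only [hm'] at h6
    unfold lt'
    rw [List.getElem?_eq_getElem (by omega)]
    exact h6

/-- structure of the gaps of positive age -/
theorem AgeT.struct {a : ℕ} {y : B} {t t' : ℕ} {i j : ℤ} (hA : AgeT τ v c (a + 1) y t t' i j) :
    j = i + 1 + a * rl τ (v i) + (runW τ y t t' 1).length + a * ll τ (v j) ∧
    ∀ k : ℕ, i + 1 + a * rl τ (v i) + k < j → v (i + 1 + a * rl τ (v i) + k) = RT τ y t t' k := by
  induction a generalizing i j with
  | zero =>
    have hrun := hA.run hN h
    have hlen := length_runW hN h hA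
    have hg := (hA.gap hN h).lt
    simp only [Nat.cast_zero, zero_mul, add_zero, zero_add] at *
    refine ⟨by omega, fun k hk => ?_⟩
    unfold RT
    rw [if_pos (by omega), ← hrun, List.getElem?_eq_getElem (by rw [length_win]; omega), getElem_win]
    rfl
  | succ a ih =>
    obtain ⟨i', j', hA', rfl, rfl⟩ := hA.pred hN h
    obtain ⟨ih1, ih2⟩ := ih hA'
    have g := hA'.gap hN h
    have hst := hA'.stable hN h
    have hch := (g.child hN h).2
    have hcut := g.cut h
    have hlet := hA'.letters hN h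
    have hval := hA.valid hN h
    rw [lf_iter hN hval.2.2.2] at hlet
    have e1 : v (RR τ v c i') = v i' := by rw [v_RR hN h g.gl, hst.1]
    have e2 : v (LL τ v c j') = v j' := by rw [v_LL hN h g.gr, hst.2]
    rw [e1, e2]
    have e3 : (((a + 1 : ℕ) : ℤ)) * (rl τ (v i') : ℤ) = a * rl τ (v i') + rl τ (v i') := by push_cast; ring
    have e4 : (((a + 1 : ℕ) : ℤ)) * (ll τ (v j') : ℤ) = a * ll τ (v j') + ll τ (v j') := by push_cast; ring
    have hRR : RR τ v c i' + 1 + rl τ (v i') = c (i' + 1) := by unfold RR; ring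
    refine ⟨by rw [e3, e4]; omega, fun k hk => ?_⟩
    rw [e3] at hk ⊢
    have e5 : RR τ v c i' + 1 + (a * (rl τ (v i') : ℤ) + rl τ (v i')) + k
        = c (i' + 1) + (a * rl τ (v i') + k) := by rw [← hRR]; ring
    rw [e5] at hk ⊢
    have hnn : (0 : ℤ) ≤ a * (rl τ (v i') : ℤ) := by positivity
    rcases lt_or_ge (i' + 1 + a * (rl τ (v i') : ℤ) + k) j' with h1 | h1
    · rw [hcut.2 _ (by omega) (by omega), ← ih2 k h1]
      congr 1
      ring
    · -- in the last part
      obtain ⟨k₂, hk₂⟩ : ∃ k₂ : ℕ, i' + 1 + a * (rl τ (v i') : ℤ) + k = j' + k₂ :=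
        ⟨(i' + 1 + a * (rl τ (v i') : ℤ) + k - j').toNat, by omega⟩
      have e6 : c (i' + 1) + (a * (rl τ (v i') : ℤ) + k) = c j' + k₂ := by
        rw [hcut.1]; omega
      have hk₂lt : k₂ < ll τ (v j') := by
        rw [e6] at hk
        unfold LL at hk
        omega
      have hlt := ll_lt hN g.gr
      rw [e6, h.val j' k₂ (by omega)]
      have e7 : k = (runW τ y t t' 1).length + (a * ll τ (v j') + k₂) := by
        have : ((a * ll τ (v j') : ℕ) : ℤ) = (a : ℤ) * (ll τ (v j') : ℤ) := by push_cast; ring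
        omega
      unfold RT
      rw [if_neg (by omega), ← hlet.2]
      have e8 : k - (runW τ y t t' 1).length = a * ll τ (v j') + k₂ := by omega
      rw [e8, perL_mul]
      unfold perL
      rw [Nat.mod_eq_of_lt hk₂lt]
      have e9 : k₂ < (lam τ (v j')).length := by rw [length_lam hN g.gr]; exact hk₂lt
      rw [List.getElem?_eq_getElem e9, Option.getD_some]
      simp only [lam, List.getElem_take]

theorem gap_word : GapWord τ v c := by
  classical
  set S : Set (ℕ → B) := (⋃ T : B × Fin (tl τ) × Fin (tl τ),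
      (Set.range (fun o : ℕ => fun k : ℕ => RT τ T.1 T.2.1 T.2.2 (o + k)) ∪
       Set.range (fun o : ℕ => fun k : ℕ => R0 τ T.1 T.2.1 T.2.2 (o + k)))) ∪
      Set.range (fun z : B × Fin (tl τ + 1) => NL τ z.1 z.2) with hS
  have hSf : S.Finite := by
    refine Set.Finite.union (Set.finite_iUnion fun T => ?_) (Set.finite_range _)
    exact (RT_shifts _ _ _).union (R0_shifts _ _ _)
  refine ⟨S, hSf, ?_⟩
  intro a y t t' i j hA
  have hval := hA.valid hN h
  have g := hA.gap hN h
  have hR0 : ∀ o : ℕ, (fun k : ℕ => R0 τ y t t' (o + k)) ∈ S := fun o =>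
    Or.inl (Set.mem_iUnion.2 ⟨(y, ⟨t, hval.1⟩, ⟨t', hval.2.1⟩), Or.inr ⟨o, rfl⟩⟩)
  have hRT : ∀ o : ℕ, (fun k : ℕ => RT τ y t t' (o + k)) ∈ S := fun o =>
    Or.inl (Set.mem_iUnion.2 ⟨(y, ⟨t, hval.1⟩, ⟨t', hval.2.1⟩), Or.inl ⟨o, rfl⟩⟩)
  have hij := g.lt
  cases a with
  | zero =>
    have hrun := hA.run hN h
    have hlen := length_runW hN h hA
    refine ⟨i + 1, le_rfl, by omega, fun _ => rfl, ?_, ?_⟩
    · intro p' h1 h2
      refine ⟨_, hR0 (p' - (i + 1)).toNat, fun k hk => ?_⟩
      unfold R0
      rw [← hrun, List.getElem?_eq_getElem (by rw [length_win]; omega), getElem_win, Option.getD_some]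
      congr 1
      push_cast
      omega
    · intro p' h1 h2
      exact ⟨_, hR0 0, fun k hk => by omega⟩
  | succ a =>
    obtain ⟨hst1, hst2⟩ := hA.struct hN h
    have hnn : (0 : ℤ) ≤ a * (rl τ (v i) : ℤ) := by positivity
    have hnn' : (0 : ℤ) ≤ a * (ll τ (v j) : ℤ) := by positivity
    refine ⟨i + 1 + a * rl τ (v i), by omega, by omega, fun h0 => by rw [h0]; simp, ?_, ?_⟩
    · intro p' h1 h2
      refine ⟨_, hRT (p' - (i + 1 + a * rl τ (v i))).toNat, fun k hk => ?_⟩
      rw [← hst2 _ (by push_cast; omega)]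
      congr 1
      push_cast
      omega
    · intro p' h1 h2
      rcases eq_or_lt_of_le h1 with h3 | h3
      · exact ⟨_, hR0 0, fun k hk => by omega⟩
      · have hper := (hA.old hN h).per hN h
        have hm : 0 < rl τ (v i) := by
          rcases Nat.eq_zero_or_pos (rl τ (v i)) with h0 | h0
          · rw [h0] at h2
            simp only [Nat.cast_zero, mul_zero, add_zero] at h2
            omega
          · exact h0
        have hle := rl_le hN h (v i) g.gl
        set m := rl τ (v i) with hmdef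
        set o := (p' - (i + 1)).toNat with ho
        have ho' : p' = i + 1 + o := by omega
        have hmod := Nat.mod_lt (o - 1) hm
        refine ⟨NL τ (v i) ((o - 1) % m), Or.inr ⟨(v i, ⟨(o - 1) % m, by omega⟩), rfl⟩, fun k hk => ?_⟩
        have hko : k < o := by omega
        have e1 : p' - 1 - (k : ℤ) = i + 1 + ((o - 1 - k : ℕ) : ℤ) := by omega
        have hcast : ((a * m : ℕ) : ℤ) = (a : ℤ) * (m : ℤ) := by push_cast; ring
        rw [e1, hper (o - 1 - k) (by omega)]
        unfold NL perR
        rw [← hmdef]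
        have e2 : (o - 1 - k) % m = ((o - 1) % m + k * (m - 1)) % m := by
          have e3 := Nat.div_add_mod (o - 1) m
          obtain ⟨m', hm'⟩ : ∃ m', m = m' + 1 := ⟨m - 1, by omega⟩
          have e4 : (o - 1 - k) + k * m = m * ((o - 1) / m) + ((o - 1) % m + k * (m - 1)) := by
            rw [hm'] at e3 ⊢
            rw [Nat.add_sub_cancel]
            have e5 : k * (m' + 1) = k * m' + k := by ring
            omega
          have e6 : (o - 1 - k + k * m) % m = (o - 1 - k) % m := Nat.add_mul_mod_self_right _ _ _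
          rw [← e6, e4, Nat.mul_add_mod]
        rw [e2]

end

end Pool.Agent.H83.MW
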