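import Pool.Agent.H68.MW.Defs

/-! # MP_1fe246_co: abstract linear lower bound for right special words (pushy case) -/

set_option autoImplicit false

set_option linter.unusedSectionVars false

namespace Pool.Agent.H83.MW

open Pool.Agent.H68.MW

variable {B A : Type} [Fintype B] {f : B → List A} {v : ℤ → B} {U : ℤ → A} {c₀ : ℤ → ℤ}

/-- bounded delay in position form -/
theorem fork (hf : Irred f) (h₀ : Img f v U c₀) (x y : ℤ) (hxy : v x ≠ v y) :
    ∃ δ : ℕ, δ < tl f ∧ (∀ t : ℕ, t < δ → U (c₀ x + t) = U (c₀ y + t)) ∧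
      U (c₀ x + δ) ≠ U (c₀ y + δ) := by
  classical
  have hex : ∃ δ : ℕ, δ < tl f ∧ U (c₀ x + δ) ≠ U (c₀ y + δ) := by
    by_contra hcon
    push Not at hcon
    have key : ∀ z : ℤ, (∀ t : ℕ, t < tl f → U (c₀ x + t) = U (c₀ z + t)) →
        win U (c₀ x) (tl f) <+: (v z :: win v (z + 1) (tl f)).flatMap f := by
      intro z hz
      rw [← win_succ, h₀.win_image, win_prefix_iff]
      have hlen := h₀.add_le z (tl f + 1)
      refine ⟨by simp only [length_win]; omega, fun i hi => ?_⟩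
      rw [getElem_win, hz i hi]
    have := hf.delay (v x) (v y) _ _ hxy (win U (c₀ x) (tl f)) (key x (fun _ _ => rfl))
      (key y hcon)
    simp at this
  refine ⟨Nat.find hex, (Nat.find_spec hex).1, fun t ht => ?_, (Nat.find_spec hex).2⟩
  by_contra hne
  have := Nat.find_min hex ht
  exact this ⟨lt_trans ht (Nat.find_spec hex).1, hne⟩

/-- equal words have images of equal length -/
theorem cut_diff_eq (h₀ : Img f v U c₀) (x y : ℤ) (k : ℕ)
    (h : ∀ t : ℕ, t < k → v (x + t) = v (y + t)) :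
    c₀ (x + k) - c₀ x = c₀ (y + k) - c₀ y := by
  induction k with
  | zero => simp
  | succ k ih =>
    have h1 := ih (fun t ht => h t (by omega))
    have h2 := h₀.step (x + k)
    have h3 := h₀.step (y + k)
    have h4 := h k (by omega)
    have e1 : x + ((k + 1 : ℕ) : ℤ) = x + k + 1 := by push_cast; ring
    have e2 : y + ((k + 1 : ℕ) : ℤ) = y + k + 1 := by push_cast; ring
    rw [e1, e2, h2, h3, h4]
    omega

/-- equal words have equal images -/
theorem image_eq (h₀ : Img f v U c₀) (x y : ℤ) (k : ℕ)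
    (h : ∀ t : ℕ, t < k → v (x + t) = v (y + t)) (s : ℕ) (hs : (s : ℤ) < c₀ (x + k) - c₀ x) :
    U (c₀ x + s) = U (c₀ y + s) := by
  have hw : win v x k = win v y k := (win_eq_iff _ _ _ _ _).2 h
  have h1 := h₀.win_image x k
  have h2 := h₀.win_image y k
  rw [hw, h2] at h1
  have hd := cut_diff_eq h₀ x y k h
  rw [← hd] at h1
  have := (win_eq_iff _ _ _ _ _).1 h1 s (by omega)
  exact this.symm

/-- if two windows of the image agree to the right of two aligned cuts, the preimages agree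
(except near the end) -/
theorem lift_right (hf : Irred f) (h₀ : Img f v U c₀) (y y' : ℤ) (N : ℕ)
    (hU : ∀ s : ℕ, s < N → U (c₀ y + s) = U (c₀ y' + s)) (t : ℕ)
    (ht : c₀ (y + t) + tl f ≤ c₀ y + N) :
    v (y + t) = v (y' + t) ∧ c₀ (y + t) - c₀ y = c₀ (y' + t) - c₀ y' := by
  induction t using Nat.strong_induction_on with
  | _ t ih =>
    have hlt : ∀ s : ℕ, s < t → v (y + s) = v (y' + s) := by
      intro s hs
      refine (ih s hs ?_).1
      have := h₀.strictMono (show y + (s : ℤ) < y + t by omega)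
      omega
    have hd := cut_diff_eq h₀ y y' t hlt
    refine ⟨?_, hd⟩
    by_contra hne
    obtain ⟨δ, hδ, _, hne'⟩ := fork hf h₀ _ _ hne
    have h1 := h₀.add_le y t
    have h2 := h₀.add_le y' t
    apply hne'
    have := hU ((c₀ (y + t) - c₀ y).toNat + δ) (by omega)
    have e1 : c₀ y + (((c₀ (y + t) - c₀ y).toNat + δ : ℕ) : ℤ) = c₀ (y + t) + δ := by
      push_cast
      rw [Int.toNat_of_nonneg (by omega)]
      ring
    have e2 : c₀ y' + (((c₀ (y + t) - c₀ y).toNat + δ : ℕ) : ℤ) = c₀ (y' + t) + δ := by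
      push_cast
      rw [Int.toNat_of_nonneg (by omega)]
      omega
    rwa [e1, e2] at this

variable {P : B → Prop} {i : ℕ → ℤ} {m : ℕ → ℕ} {κ : ℕ}

/-- Abstract setting of the lower bound -/
structure Low (P : B → Prop) (v : ℤ → B) (i : ℕ → ℤ) (m : ℕ → ℕ) (κ : ℕ) : Prop where
  hP : ∀ k, P (v (i k))
  hN : ∀ k, ∀ t : ℕ, t < m k → ¬ P (v (i k + 1 + t))
  heq : ∀ k, ∀ t : ℕ, t < m k → v (i k + 1 + t) = v (i (k + 1) + 1 + t)
  hne : ∀ k, v (i k + 1 + m k) ≠ v (i (k + 1) + 1 + m k)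
  hm1 : ∀ k, m k < m (k + 1)
  hm2 : ∀ k, m (k + 1) ≤ m k + κ
  hl : ∀ k, ∀ t : ℕ, t ≤ k → v (i k - t) = v (i (k + 1) - t)

theorem Low.eqs (hL : Low P v i m κ) (k t : ℕ) (ht : t < k + 1 + m k) :
    v (i k - k + t) = v (i (k + 1) - k + t) := by
  by_cases h1 : t ≤ k
  · have := hL.hl k (k - t) (by omega)
    rw [Nat.cast_sub h1] at this
    have e1 : i k - ((k : ℤ) - t) = i k - k + t := by ring
    have e2 : i (k + 1) - ((k : ℤ) - t) = i (k + 1) - k + t := by ring
    rwa [e1, e2] at this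
  · have := hL.heq k (t - k - 1) (by omega)
    have e : ((t - k - 1 : ℕ) : ℤ) = (t : ℤ) - k - 1 := by omega
    rw [e] at this
    have e1 : i k + 1 + ((t : ℤ) - k - 1) = i k - k + t := by ring
    have e2 : i (k + 1) + 1 + ((t : ℤ) - k - 1) = i (k + 1) - k + t := by ring
    rwa [e1, e2] at this

/-- length of the image of the letter at `i k` and the following `m k` letters -/
noncomputable def pp (c₀ : ℤ → ℤ) (i : ℕ → ℤ) (m : ℕ → ℕ) (k : ℕ) : ℤ := c₀ (i k + 1 + m k) - c₀ (i k)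

theorem pp_step (h₀ : Img f v U c₀) (hL : Low P v i m κ) (k : ℕ) :
    pp c₀ i m k + 1 ≤ pp c₀ i m (k + 1) ∧ pp c₀ i m (k + 1) ≤ pp c₀ i m k + κ * tl f := by
  have h1 : c₀ (i k + ((m k + 1 : ℕ) : ℤ)) - c₀ (i k)
      = c₀ (i (k + 1) + ((m k + 1 : ℕ) : ℤ)) - c₀ (i (k + 1)) := by
    apply cut_diff_eq h₀
    intro t ht
    cases t with
    | zero => simpa using hL.hl k 0 (by omega)
    | succ t =>
      have := hL.heq k t (by omega)
      push_cast
      have e1 : i k + ((t : ℤ) + 1) = i k + 1 + t := by ring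
      have e2 : i (k + 1) + ((t : ℤ) + 1) = i (k + 1) + 1 + t := by ring
      rw [e1, e2]; exact this
  have e1 : i k + ((m k + 1 : ℕ) : ℤ) = i k + 1 + m k := by push_cast; ring
  have e2 : i (k + 1) + ((m k + 1 : ℕ) : ℤ) = i (k + 1) + 1 + m k := by push_cast; ring
  rw [e1, e2] at h1
  have h2 := h₀.add_le (i (k + 1) + 1 + m k) (m (k + 1) - m k)
  have h3 := h₀.add_le' (i (k + 1) + 1 + m k) (m (k + 1) - m k)
  have e3 : i (k + 1) + 1 + (m k : ℤ) + ((m (k + 1) - m k : ℕ) : ℤ) = i (k + 1) + 1 + m (k + 1) := by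
    have := hL.hm1 k
    push_cast [Nat.cast_sub this.le]
    ring
  rw [e3] at h2 h3
  have h4 := hL.hm1 k
  have h5 := hL.hm2 k
  have h6 : ((m (k + 1) - m k : ℕ) : ℤ) * tl f ≤ κ * tl f := by
    apply mul_le_mul_of_nonneg_right
    · omega
    · positivity
  unfold pp
  constructor
  · have : (1 : ℤ) ≤ ((m (k + 1) - m k : ℕ) : ℤ) := by omega
    omega
  · linarith

theorem pp_ge (h₀ : Img f v U c₀) (hL : Low P v i m κ) (k : ℕ) : (k : ℤ) + 1 ≤ pp c₀ i m k := by
  induction k with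
  | zero =>
    have := h₀.add_le (i 0) (1 + m 0)
    unfold pp
    have e : i 0 + ((1 + m 0 : ℕ) : ℤ) = i 0 + 1 + m 0 := by push_cast; ring
    rw [e] at this
    push_cast at this ⊢
    omega
  | succ k ih =>
    have := (pp_step h₀ hL k).1
    push_cast
    linarith

theorem pp_add_le (h₀ : Img f v U c₀) (hL : Low P v i m κ) (k j : ℕ) :
    pp c₀ i m k + j ≤ pp c₀ i m (k + j) ∧ pp c₀ i m (k + j) ≤ pp c₀ i m k + j * (κ * tl f) := by
  induction j with
  | zero => simp
  | succ j ih =>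
    have := pp_step h₀ hL (k + j)
    rw [← add_assoc]
    push_cast
    constructor
    · linarith [ih.1, this.1]
    · linarith [ih.2, this.2]

/-- the fork of `U` -/
theorem exists_delta (hf : Irred f) (h₀ : Img f v U c₀) (hL : Low P v i m κ) (k : ℕ) :
    ∃ δ : ℕ, δ < tl f ∧
      (∀ s : ℕ, (s : ℤ) < c₀ (i k + 1 + m k) - c₀ (i k - k) + δ →
        U (c₀ (i k - k) + s) = U (c₀ (i (k + 1) - k) + s)) ∧
      c₀ (i (k + 1) + 1 + m k) - c₀ (i (k + 1) - k) = c₀ (i k + 1 + m k) - c₀ (i k - k) ∧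
      U (c₀ (i k + 1 + m k) + δ) ≠ U (c₀ (i (k + 1) + 1 + m k) + δ) := by
  obtain ⟨δ, hδ, h1, h2⟩ := fork hf h₀ _ _ (hL.hne k)
  have h3 := cut_diff_eq h₀ (i k - k) (i (k + 1) - k) (k + 1 + m k) (fun t ht => hL.eqs k t ht)
  have e1 : i k - k + ((k + 1 + m k : ℕ) : ℤ) = i k + 1 + m k := by push_cast; ring
  have e2 : i (k + 1) - k + ((k + 1 + m k : ℕ) : ℤ) = i (k + 1) + 1 + m k := by push_cast; ring
  rw [e1, e2] at h3
  refine ⟨δ, hδ, ?_, h3.symm, h2⟩
  intro s hs
  by_cases hs' : (s : ℤ) < c₀ (i k + 1 + m k) - c₀ (i k - k)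
  · apply image_eq h₀ (i k - k) (i (k + 1) - k) (k + 1 + m k) (fun t ht => hL.eqs k t ht)
    rw [e1]; exact hs'
  · have h4 := h₀.add_le (i k - k) (k + 1 + m k)
    rw [e1] at h4
    have := h1 (s - (c₀ (i k + 1 + m k) - c₀ (i k - k)).toNat) (by omega)
    have e3 : ((s - (c₀ (i k + 1 + m k) - c₀ (i k - k)).toNat : ℕ) : ℤ)
        = s - (c₀ (i k + 1 + m k) - c₀ (i k - k)) := by omega
    rw [e3] at this
    have e4 : c₀ (i k + 1 + m k) + ((s : ℤ) - (c₀ (i k + 1 + m k) - c₀ (i k - k)))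
        = c₀ (i k - k) + s := by ring
    have e5 : c₀ (i (k + 1) + 1 + m k) + ((s : ℤ) - (c₀ (i k + 1 + m k) - c₀ (i k - k)))
        = c₀ (i (k + 1) - k) + s := by rw [h3]; ring
    rwa [e4, e5] at this


theorem distinct (hf : Irred f) (h₀ : Img f v U c₀) (hL : Low P v i m κ) (k k' n δ δ' : ℕ)
    (hδ : δ < tl f) (hδ' : δ' < tl f) (hkk : pp c₀ i m k + tl f ≤ pp c₀ i m k')
    (hk : (tl f : ℤ) ≤ pp c₀ i m k) (hn : pp c₀ i m k' + tl f ≤ n)
    (hw : ∀ s : ℕ, s < n → U (c₀ (i k + 1 + m k) + δ - n + s) = U (c₀ (i k' + 1 + m k') + δ' - n + s))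
    (y y' : ℤ) (hy : ∀ x, c₀ (i k + 1 + m k) + δ - n ≤ c₀ x → y ≤ x) (o : ℕ)
    (ho : c₀ y = c₀ (i k + 1 + m k) + δ - n + o) (ho' : c₀ y' = c₀ (i k' + 1 + m k') + δ' - n + o) :
    False := by
  have hpk : c₀ (i k + 1 + m k) = c₀ (i k) + pp c₀ i m k := by unfold pp; ring
  have hpk' : c₀ (i k' + 1 + m k') = c₀ (i k') + pp c₀ i m k' := by unfold pp; ring
  have hyi : y ≤ i k := hy _ (by rw [hpk]; omega)
  have hcy : c₀ y ≤ c₀ (i k) := h₀.strictMono.monotone hyi
  obtain ⟨t, ht⟩ : ∃ t : ℕ, y + t = i k := ⟨(i k - y).toNat, by omega⟩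
  have hon : o ≤ n := by omega
  have h1 := lift_right hf h₀ y y' (n - o) (fun s hs => by
    have := hw (o + s) (by omega)
    rw [ho, ho']
    push_cast at this
    rw [← add_assoc, ← add_assoc] at this
    exact this) t (by
      rw [ht, ho]
      push_cast [Nat.cast_sub hon]
      omega)
  rw [ht] at h1
  obtain ⟨h1, h2⟩ := h1
  have hz1 : i k' < y' + t := by
    by_contra hcon
    have := h₀.strictMono.monotone (not_lt.1 hcon)
    omega
  have hz2 : y' + t < i k' + 1 + m k' := by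
    by_contra hcon
    have := h₀.strictMono.monotone (not_lt.1 hcon)
    omega
  have h3 := hL.hN k' (y' + t - i k' - 1).toNat (by omega)
  have e : i k' + 1 + (((y' + t - i k' - 1).toNat : ℕ) : ℤ) = y' + t := by omega
  rw [e, ← h1] at h3
  exact h3 (hL.hP k)

theorem RS_finite {A : Type} [Finite A] (U : ℤ → A) (n : ℕ) : (RS U n).Finite := by
  apply Set.Finite.subset (List.finite_length_eq A n)
  rintro w ⟨e, e', h, _⟩
  simp [h]

/-- **Linear lower bound.** -/
theorem lower_abs [Finite A] (hf : Irred f) (h₀ : Img f v U c₀) (hL : Low P v i m κ) :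
    ∃ K : ℕ, ∀ n : ℕ, n ≤ K * (rs U n + 1) := by
  classical
  choose δ hδ1 hδ2 hδ3 hδ4 using exists_delta hf h₀ hL
  set D := tl f with hD
  have hDpos : 0 < D := lt_of_le_of_lt (Nat.zero_le _) (hδ1 0)
  have hκ : 1 ≤ κ := by
    have h1 := hL.hm1 0
    have h2 := hL.hm2 0
    omega
  set M := κ * D with hM
  have hMpos : 1 ≤ M := Nat.mul_pos hκ hDpos
  set E : ℕ → ℤ := fun k => c₀ (i k + 1 + m k) + δ k with hE
  have hpk : ∀ k, c₀ (i k + 1 + m k) = c₀ (i k) + pp c₀ i m k := by intro k; unfold pp; ring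
  have hmem : ∀ k n : ℕ, (n : ℤ) ≤ pp c₀ i m k + k → win U (E k - n) n ∈ RS U n := by
    intro k n hn
    refine ⟨E k, c₀ (i (k + 1) + 1 + m k) + δ k, rfl, ?_, hδ4 k⟩
    rw [win_eq_iff]
    intro s hs
    have h1 := h₀.add_le (i k - k) k
    rw [sub_add_cancel] at h1
    have h2 := hδ2 k (E k - n - c₀ (i k - k) + s).toNat (by
      simp only [hE] at *
      have := hpk k
      omega)
    have h3 := hδ3 k
    have h4 := hpk k
    have e1 : c₀ (i k - k) + (((E k - n - c₀ (i k - k) + s).toNat : ℕ) : ℤ) = E k - n + s := by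
      simp only [hE] at *
      omega
    have e2 : c₀ (i (k + 1) - k) + (((E k - n - c₀ (i k - k) + s).toNat : ℕ) : ℤ)
        = c₀ (i (k + 1) + 1 + m k) + δ k - n + s := by
      simp only [hE] at *
      omega
    rwa [e1, e2] at h2
  -- first cut in the window
  have hcut : ∀ z : ℤ, ∃ y : ℤ, ∃ o : ℕ, o < D ∧ c₀ y = z + o ∧ ∀ x, z ≤ c₀ x → y ≤ x := by
    intro z
    obtain ⟨mm, h1, h2⟩ := h₀.exists_block (z - 1)
    have h3 := h₀.step_le mm
    refine ⟨mm + 1, (c₀ (mm + 1) - z).toNat, by omega, by omega, ?_⟩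
    intro x hx
    by_contra hcon
    have := h₀.strictMono.monotone (show x ≤ mm by omega)
    omega
  choose Y O hO1 hO2 hO3 using hcut
  set p0 := (pp c₀ i m 0).toNat with hp0
  have hp0' : (p0 : ℤ) = pp c₀ i m 0 := by
    have := pp_ge h₀ hL 0
    omega
  set n0 := (pp c₀ i m (M + D)).toNat + D with hn0
  refine ⟨n0 + M * (1 + M) * D * D + (p0 + D + M + M * (M + D)), ?_⟩
  intro n
  by_cases hnn : n < n0
  · calc n ≤ n0 * 1 := by omega
      _ ≤ (n0 + M * (1 + M) * D * D + (p0 + D + M + M * (M + D))) * (rs U n + 1) :=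
        Nat.mul_le_mul (by omega) (by omega)
  push Not at hnn
  -- the largest `k` with `pp k + D ≤ n`
  have hex : pp c₀ i m (M + D) + D ≤ n := by
    have := pp_ge h₀ hL (M + D)
    omega
  have hMDn : M + D ≤ n := by
    have := pp_ge h₀ hL (M + D)
    omega
  set s := Nat.findGreatest (fun k => pp c₀ i m k + D ≤ n) n with hs
  have hs1 : pp c₀ i m s + D ≤ n :=
    Nat.findGreatest_spec (P := fun k => pp c₀ i m k + D ≤ n) hMDn hex
  have hs2 : M + D ≤ s := Nat.le_findGreatest hMDn hex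
  have hs3 : (n : ℤ) < pp c₀ i m (s + 1) + D := by
    by_contra hcon
    push Not at hcon
    have hsn : s + 1 ≤ n := by
      have := pp_ge h₀ hL (s + 1)
      omega
    have := Nat.le_findGreatest (P := fun k => pp c₀ i m k + D ≤ n) hsn hcon
    omega
  set T := (s - M - D) / (1 + M) with hT
  set J := T / D with hJ
  have hTle : (1 + M) * T ≤ s - M - D := Nat.mul_div_le _ _
  have hTlt : s - M - D < (1 + M) * (T + 1) := by
    rw [hT]
    exact Nat.lt_mul_div_succ _ (by omega)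
  have hJle : D * J ≤ T := Nat.mul_div_le _ _
  have hJlt : T < D * (J + 1) := by
    rw [hJ]
    exact Nat.lt_mul_div_succ _ hDpos
  have hDj : ∀ j, j ≤ J → D * j ≤ s ∧ M * (D * j) + M + D ≤ s - D * j := by
    intro j hj
    have h1 : D * j ≤ D * J := Nat.mul_le_mul_left _ hj
    have h2 : (1 + M) * (D * j) ≤ (1 + M) * T := Nat.mul_le_mul_left _ (by omega)
    have h3 : (1 + M) * (D * j) = D * j + M * (D * j) := by ring
    omega
  have hkj1 : ∀ j, j ≤ J → (n : ℤ) ≤ pp c₀ i m (s - D * j) + ((s - D * j : ℕ) : ℤ) := by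
    intro j hj
    obtain ⟨h1, h2⟩ := hDj j hj
    have h3 := (pp_add_le h₀ hL (s - D * j) (D * j)).2
    rw [Nat.sub_add_cancel h1] at h3
    have h4 := (pp_step h₀ hL s).2
    rw [← hD] at h3 h4
    have h5 : (((D * j : ℕ) : ℤ)) * (κ * D) = ((M * (D * j) : ℕ) : ℤ) := by
      rw [hM]; push_cast; ring
    rw [h5] at h3
    have h6 : (κ : ℤ) * D = (M : ℤ) := by rw [hM]; push_cast; ring
    rw [h6] at h4
    omega
  have hkj2 : ∀ j j', j < j' → j' ≤ J → pp c₀ i m (s - D * j') + D ≤ pp c₀ i m (s - D * j) := by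
    intro j j' hjj hj'
    obtain ⟨h1, _⟩ := hDj j' hj'
    have h2 : D * j + D ≤ D * j' := by
      have : D * (j + 1) ≤ D * j' := Nat.mul_le_mul_left _ hjj
      have e : D * (j + 1) = D * j + D := by ring
      omega
    have h3 := (pp_add_le h₀ hL (s - D * j') (D * j' - D * j)).1
    have e : s - D * j' + (D * j' - D * j) = s - D * j := by omega
    rw [e] at h3
    omega
  have hkj3 : ∀ j, j ≤ J → (D : ℤ) ≤ pp c₀ i m (s - D * j) := by
    intro j hj
    obtain ⟨h1, h2⟩ := hDj j hj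
    have := pp_ge h₀ hL (s - D * j)
    omega
  have hkj4 : ∀ j, j ≤ J → pp c₀ i m (s - D * j) + D ≤ n := by
    intro j hj
    obtain ⟨h1, h2⟩ := hDj j hj
    have h3 := (pp_add_le h₀ hL (s - D * j) (D * j)).1
    rw [Nat.sub_add_cancel h1] at h3
    omega
  -- the injection
  have hcard : J + 1 ≤ rs U n * D := by
    have hfin := RS_finite U n
    let g : Fin (J + 1) → (RS U n) × Fin D := fun j =>
      (⟨win U (E (s - D * j.1) - n) n, hmem _ _ (hkj1 j.1 (by omega))⟩,
        ⟨O (E (s - D * j.1) - n), hO1 _⟩)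
    have key : ∀ a b : Fin (J + 1), a.1 < b.1 → g a = g b → False := by
      intro a b hab hg
      have h1 : win U (E (s - D * a.1) - n) n = win U (E (s - D * b.1) - n) n := by
        have := congrArg (fun x => (x.1 : List A)) hg
        simpa [g] using this
      have h2 : O (E (s - D * a.1) - n) = O (E (s - D * b.1) - n) := by
        have := congrArg (fun x => (x.2 : ℕ)) hg
        simpa [g] using this
      have h3 := (win_eq_iff _ _ _ _ _).1 h1
      refine distinct hf h₀ hL (s - D * b.1) (s - D * a.1) n (δ (s - D * b.1)) (δ (s - D * a.1))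
        (hδ1 _) (hδ1 _) (hkj2 a.1 b.1 hab (by omega)) (hkj3 _ (by omega)) (hkj4 _ (by omega))
        (fun t ht => (h3 t ht).symm) (Y (E (s - D * b.1) - n)) (Y (E (s - D * a.1) - n))
        (hO3 _) (O (E (s - D * b.1) - n)) (hO2 _) ?_
      rw [← h2]
      exact hO2 _
    have hinj : Function.Injective g := by
      intro a b hg
      rcases lt_trichotomy a.1 b.1 with h | h | h
      · exact (key a b h hg).elim
      · exact Fin.ext h
      · exact (key b a h hg.symm).elim
    have : Finite (RS U n) := hfin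
    have : Fintype (RS U n) := Fintype.ofFinite _
    have h1 := Fintype.card_le_of_injective g hinj
    rw [Fintype.card_prod, Fintype.card_fin, Fintype.card_fin] at h1
    unfold rs
    rw [← Nat.card_coe_set_eq, Nat.card_eq_fintype_card]
    exact h1
  -- arithmetic
  have h1 : (n : ℤ) < p0 + (s + 1) * M + D := by
    have h2 := (pp_add_le h₀ hL 0 (s + 1)).2
    rw [Nat.zero_add] at h2
    rw [hp0']
    rw [← hD] at h2
    have h6 : (((s + 1 : ℕ) : ℤ)) * ((κ : ℤ) * D) = (s + 1) * M := by rw [hM]; push_cast; ring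
    rw [h6] at h2
    omega
  have h1' : n < p0 + (s + 1) * M + D := by exact_mod_cast h1
  have h2 : s ≤ (1 + M) * (D * (J + 1)) + M + D := by
    have : (1 + M) * (T + 1) ≤ (1 + M) * (D * (J + 1)) := Nat.mul_le_mul_left _ hJlt
    omega
  have h3 : (1 + M) * (D * (J + 1)) ≤ (1 + M) * (D * (rs U n * D)) :=
    Nat.mul_le_mul_left _ (Nat.mul_le_mul_left _ hcard)
  have h4 : (s + 1) * M ≤ ((1 + M) * (D * (rs U n * D)) + M + D + 1) * M := by
    apply Nat.mul_le_mul_right
    omega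
  calc n ≤ p0 + ((1 + M) * (D * (rs U n * D)) + M + D + 1) * M + D := by omega
    _ = M * (1 + M) * D * D * rs U n + (p0 + D + M + M * (M + D)) := by ring
    _ ≤ (n0 + M * (1 + M) * D * D + (p0 + D + M + M * (M + D))) * (rs U n + 1) := by
        have e : (n0 + M * (1 + M) * D * D + (p0 + D + M + M * (M + D))) * (rs U n + 1)
          = M * (1 + M) * D * D * rs U n + (p0 + D + M + M * (M + D))
            + (n0 * (rs U n + 1) + M * (1 + M) * D * D + (p0 + D + M + M * (M + D)) * rs U n) := by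
            ring
        rw [e]
        exact Nat.le_add_right _ _

end Pool.Agent.H83.MW
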