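import Pool.Agent.H83.MW.Gap

/-! # MP_1fe246_co: growing gaps give the sequences of the abstract lower bound -/

set_option autoImplicit false
set_option linter.unusedSectionVars false

namespace Pool.Agent.H83.MW

open Pool.Agent.H68.MW

variable {B : Type} [Fintype B] {τ : B → List B} {v : ℤ → B} {c : ℤ → ℤ}

section
variable (hN : Nrm τ) (h : Img τ v v c)
include hN h

theorem gap_iter {i j : ℤ} (g : Gap τ v i j) (k : ℕ) :
    Gap τ v ((RR τ v c)^[k] i) ((LL τ v c)^[k] j) := by
  induction k with
  | zero => exact g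
  | succ k ih =>
    rw [Function.iterate_succ_apply', Function.iterate_succ_apply']
    exact (ih.child hN h).1

theorem v_iter_R {i : ℤ} (hi : Gr τ (v i)) (hs : rf τ (v i) = v i) (k : ℕ) :
    v ((RR τ v c)^[k] i) = v i := by
  induction k with
  | zero => rfl
  | succ k ih =>
    rw [Function.iterate_succ_apply', v_RR hN h (by rw [ih]; exact hi), ih, hs]

theorem v_iter_L {i : ℤ} (hi : Gr τ (v i)) (hs : lf τ (v i) = v i) (k : ℕ) :
    v ((LL τ v c)^[k] i) = v i := by
  induction k with
  | zero => rfl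
  | succ k ih =>
    rw [Function.iterate_succ_apply', v_LL hN h (by rw [ih]; exact hi), ih, hs]

/-- length of the gap -/
theorem gap_len {i j : ℤ} (g : Gap τ v i j) (hi : rf τ (v i) = v i) (hj : lf τ (v j) = v j) (k : ℕ) :
    (LL τ v c)^[k] j - (RR τ v c)^[k] i - 1 = (j - i - 1) + k * (rl τ (v i) + ll τ (v j)) := by
  induction k with
  | zero => simp
  | succ k ih =>
    have h1 := ((gap_iter hN h g k).child hN h).2
    rw [Function.iterate_succ_apply', Function.iterate_succ_apply', h1, ih,
      v_iter_R hN h g.gl hi, v_iter_L hN h g.gr hj]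
    push_cast
    ring

/-- growth of the agreement of left contexts -/
theorem ag_step {a b : ℤ} {n : ℕ} (hag : ∀ t : ℕ, t ≤ n → v (a - t) = v (b - t)) (t : ℕ)
    (ht : c (a - n) ≤ RR τ v c a - t) :
    v (RR τ v c a - t) = v (RR τ v c b - t) := by
  have hw : ∀ s : ℕ, s < n + 1 → v (a - n + s) = v (b - n + s) := by
    intro s hs
    have := hag (n - s) (by omega)
    have e : ((n - s : ℕ) : ℤ) = n - s := by omega
    rw [e] at this
    have e1 : a - ((n : ℤ) - s) = a - n + s := by ring
    have e2 : b - ((n : ℤ) - s) = b - n + s := by ring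
    rwa [e1, e2] at this
  have h0 : v a = v b := by simpa using hag 0 (by omega)
  have h1 := cut_diff_eq h (a - n) (b - n) (n + 1) hw
  have e1 : a - n + ((n + 1 : ℕ) : ℤ) = a + 1 := by push_cast; ring
  have e2 : b - n + ((n + 1 : ℕ) : ℤ) = b + 1 := by push_cast; ring
  rw [e1, e2] at h1
  have h2 := image_eq h (a - n) (b - n) (n + 1) hw (RR τ v c a - t - c (a - n)).toNat (by
    rw [e1]
    unfold RR at ht ⊢
    omega)
  have e3 : c (a - n) + (((RR τ v c a - t - c (a - n)).toNat : ℕ) : ℤ) = RR τ v c a - t := by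
    omega
  have e4 : c (b - n) + (((RR τ v c a - t - c (a - n)).toNat : ℕ) : ℤ) = RR τ v c b - t := by
    unfold RR at ht ⊢
    rw [← h0]
    omega
  rwa [e3, e4] at h2

theorem ag_grow {a b : ℤ} {n : ℕ} (ha : Gr τ (v a)) (hag : ∀ t : ℕ, t ≤ n → v (a - t) = v (b - t))
    (hgr : rl τ (v a) + 2 ≤ (τ (v a)).length ∨ ∃ t : ℕ, 1 ≤ t ∧ t ≤ n ∧ Gr τ (v (a - t))) :
    ∀ t : ℕ, t ≤ n + 1 → v (RR τ v c a - t) = v (RR τ v c b - t) := by
  intro t ht
  apply ag_step hN h hag
  have h1 := h.add_le (a - n) n
  rw [sub_add_cancel] at h1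
  have h2 := h.step a
  have h3 := rl_lt hN ha
  unfold RR
  rcases hgr with hgr | ⟨s, hs1, hs2, hs3⟩
  · omega
  · have h4 := h.add_le (a - n) (n - s)
    have e1 : a - n + ((n - s : ℕ) : ℤ) = a - s := by omega
    rw [e1] at h4
    have h5 := h.step (a - s)
    have h6 := (hN.dich _ hs3).1
    have h7 := h.add_le (a - s + 1) (s - 1)
    have e2 : a - s + 1 + ((s - 1 : ℕ) : ℤ) = a := by omega
    rw [e2] at h7
    omega

/-- left contexts of the iterates agree on linearly growing lengths -/
theorem left_agree (hleft : ∀ x : ℤ, ∃ y, y < x ∧ Gr τ (v y)) {i : ℤ} (hi : Gr τ (v i))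
    (hs : rf τ (v i) = v i) :
    ∀ k : ℕ, ∀ t : ℕ, t + 1 ≤ k →
      v ((RR τ v c)^[k] i - t) = v ((RR τ v c)^[k + 1] i - t) := by
  set I : ℕ → ℤ := fun k => (RR τ v c)^[k] i with hI
  have hvI : ∀ k, v (I k) = v i := fun k => v_iter_R hN h hi hs k
  have hIs : ∀ k, I (k + 1) = RR τ v c (I k) := fun k => Function.iterate_succ_apply' _ _ _
  have h0 : ∀ k, ∀ t : ℕ, t ≤ 0 → v (I k - t) = v (I (k + 1) - t) := by
    intro k t ht
    obtain rfl : t = 0 := by omega
    simp only [Nat.cast_zero, sub_zero]
    rw [hvI, hvI]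
  by_cases hr : rl τ (v i) + 2 ≤ (τ (v i)).length
  · have : ∀ k, ∀ t : ℕ, t ≤ k → v (I k - t) = v (I (k + 1) - t) := by
      intro k
      induction k with
      | zero => exact h0 0
      | succ k ih =>
        rw [hIs k, hIs (k + 1)]
        exact ag_grow hN h (by rw [hvI]; exact hi) ih (Or.inl (by rw [hvI]; exact hr))
    intro k t ht
    exact this k t (by omega)
  · have hlen : (τ (v i)).length = rl τ (v i) + 1 := by
      have := rl_lt hN hi
      omega
    -- the last growing letter of the block is the first letter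
    have hRc : ∀ k, I (k + 1) = c (I k) := by
      intro k
      rw [hIs, RR, h.step, hvI, hlen]
      push_cast
      ring
    have hLR : ∀ k, LL τ v c (I k) = I (k + 1) := by
      intro k
      have h1 := c_lt_LL hN h (i := I k) (by rw [hvI]; exact hi)
      have h2 := LL_le_RR hN h (i := I k) (by rw [hvI]; exact hi)
      rw [← hIs, hRc] at h2
      rw [hRc]
      omega
    -- the previous growing position
    obtain ⟨g, hg⟩ : ∃ g, Gap τ v g i := by
      obtain ⟨y, hy, hgy⟩ := hleft i
      classical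
      have hex : ∃ n : ℕ, Gr τ (v (i - 1 - n)) := ⟨(i - 1 - y).toNat, by
        have e : i - 1 - (((i - 1 - y).toNat : ℕ) : ℤ) = y := by omega
        rw [e]; exact hgy⟩
      refine ⟨i - 1 - (Nat.find hex : ℕ), by omega, Nat.find_spec hex, hi, ?_⟩
      intro z hz1 hz2
      have := Nat.find_min hex (m := (i - 1 - z).toNat) (by omega)
      have e : i - 1 - (((i - 1 - z).toNat : ℕ) : ℤ) = z := by omega
      rwa [e] at this
    set G : ℕ → ℤ := fun k => (RR τ v c)^[k] g with hG
    have hGs : ∀ k, G (k + 1) = RR τ v c (G k) := fun k => Function.iterate_succ_apply' _ _ _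
    have hgap : ∀ k, Gap τ v (G k) (I k) := by
      intro k
      induction k with
      | zero => exact hg
      | succ k ih =>
        have := (ih.child hN h).1
        rw [hLR, ← hGs] at this
        exact this
    have hll : ∀ k, ll τ (v (I k)) = 0 := by
      intro k
      have h1 := hLR k
      rw [hRc, LL] at h1
      omega
    have hq : ∀ k, I (k + 1) - G (k + 1) - 1 = rl τ (v (G k)) + (I k - G k - 1) := by
      intro k
      have := ((hgap k).child hN h).2
      rw [hLR, ← hGs, hll] at this
      rw [this]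
      push_cast
      ring
    have hvG : ∀ k, v (G (k + 1)) = rf τ (v g) := by
      intro k
      have h1 := v_RR hN h hg.gl
      have h2 : G (k + 1) = (RR τ v c)^[k] (RR τ v c g) := by
        show (RR τ v c)^[k + 1] g = _
        rw [Function.iterate_succ_apply]
      rw [h2, v_iter_R hN h (by rw [h1]; exact gr_rf hN hg.gl) (by rw [h1]; exact hN.idR _ hg.gl), h1]
    have hagq : ∀ k, ∀ t : ℕ, (t : ℤ) ≤ I k - G k - 1 → v (I k - t) = v (I (k + 1) - t) := by
      intro k t ht
      cases t with
      | zero =>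
        simp only [Nat.cast_zero, sub_zero]
        rw [hvI, hvI]
      | succ t =>
        have h1 := (hgap k).cut h
        have h2 := h1.2 (I k - G k - 1 - ((t + 1 : ℕ) : ℤ)) (by omega) (by push_cast; omega)
        rw [hRc k]
        have e1 : c (G k + 1) + (I k - G k - 1 - ((t + 1 : ℕ) : ℤ)) = c (I k) - ((t + 1 : ℕ) : ℤ) := by
          rw [h1.1]; ring
        have e2 : G k + 1 + (I k - G k - 1 - ((t + 1 : ℕ) : ℤ)) = I k - ((t + 1 : ℕ) : ℤ) := by ring
        rw [e1, e2] at h2
        exact h2.symm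
    by_cases hrl : rl τ (rf τ (v g)) = 0
    · -- the left gap is constant
      have hq1 : ∀ k, I (k + 1) - G (k + 1) - 1 = I 1 - G 1 - 1 := by
        intro k
        induction k with
        | zero => rfl
        | succ k ih =>
          rw [hq (k + 1), hvG, hrl, ih]
          simp
      have hq0 : 0 ≤ I 1 - G 1 - 1 := by have := (hgap 1).lt; omega
      set Q := (I 1 - G 1 - 1).toNat with hQ
      have key : ∀ k, ∀ t : ℕ, t ≤ Q + 1 + k → v (I (k + 1) - t) = v (I (k + 1 + 1) - t) := by
        intro k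
        induction k with
        | zero =>
          intro t ht
          rcases Nat.lt_or_ge t (Q + 1) with h1 | h1
          · exact hagq 1 t (by have := hq1 0; omega)
          · obtain rfl : t = Q + 1 := by omega
            have e1 : I 1 - ((Q + 1 : ℕ) : ℤ) = G (0 + 1) := by
              show I 1 - ((Q + 1 : ℕ) : ℤ) = G 1
              push_cast
              omega
            have e2 : I 2 - ((Q + 1 : ℕ) : ℤ) = G (1 + 1) := by
              have h9 : I 2 - G 2 - 1 = I 1 - G 1 - 1 := hq1 1
              show I 2 - ((Q + 1 : ℕ) : ℤ) = G 2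
              push_cast
              omega
            show v (I 1 - ((Q + 1 : ℕ) : ℤ)) = v (I 2 - ((Q + 1 : ℕ) : ℤ))
            rw [e1, e2, hvG, hvG]
        | succ k ih =>
          rw [hIs (k + 1), hIs (k + 1 + 1)]
          refine ag_grow hN h (n := Q + 1 + k) (by rw [hvI]; exact hi) ih
            (Or.inr ⟨Q + 1, by omega, by omega, ?_⟩)
          have e1 : I (k + 1) - ((Q + 1 : ℕ) : ℤ) = G (k + 1) := by
            have h9 := hq1 k
            push_cast
            omega
          rw [e1, hvG]
          exact gr_rf hN hg.gl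
      intro k t ht
      cases k with
      | zero => omega
      | succ k => exact key k t (by omega)
    · have hqk : ∀ k : ℕ, (k : ℤ) ≤ I (k + 1) - G (k + 1) - 1 := by
        intro k
        induction k with
        | zero =>
          have := (hgap 1).lt
          simp only [Nat.zero_add, Nat.cast_zero]
          omega
        | succ k ih =>
          rw [hq (k + 1), hvG]
          push_cast
          omega
      intro k t ht
      cases k with
      | zero => omega
      | succ k => exact hagq (k + 1) t (by have := hqk k; omega)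

/-- a gap with positive rate produces the sequences of the abstract lower bound -/
theorem lower_seq (hleft : ∀ x : ℤ, ∃ y, y < x ∧ Gr τ (v y)) {i j : ℤ} (g : Gap τ v i j)
    (hi : rf τ (v i) = v i) (hj : lf τ (v j) = v j) (hκ : 0 < rl τ (v i) + ll τ (v j)) :
    ∃ (I : ℕ → ℤ) (m : ℕ → ℕ) (κ : ℕ), Low (Gr τ) v I m κ := by
  classical
  set I : ℕ → ℤ := fun k => (RR τ v c)^[k] i with hI
  set J : ℕ → ℤ := fun k => (LL τ v c)^[k] j with hJ
  set κ := rl τ (v i) + ll τ (v j) with hκd
  have hvI : ∀ k, v (I k) = v i := fun k => v_iter_R hN h g.gl hi k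
  have hvJ : ∀ k, v (J k) = v j := fun k => v_iter_L hN h g.gr hj k
  have hIs : ∀ k, I (k + 1) = RR τ v c (I k) := fun k => Function.iterate_succ_apply' _ _ _
  have hgap : ∀ k, Gap τ v (I k) (J k) := gap_iter hN h g
  have hlen0 : ∀ k : ℕ, J k - I k - 1 = (j - i - 1) + k * κ := by
    intro k
    have := gap_len hN h g hi hj k
    rw [hκd]
    push_cast
    exact this
  have hJI : ∀ k, 0 ≤ J k - I k - 1 := fun k => by have := (hgap k).lt; omega
  set ℓ : ℕ → ℕ := fun k => (J k - I k - 1).toNat with hℓ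
  have hℓ' : ∀ k, (ℓ k : ℤ) = J k - I k - 1 := fun k => by
    have := hJI k
    simp only [hℓ]
    omega
  have hℓs : ∀ k, ℓ (k + 1) = ℓ k + κ := by
    intro k
    have h1 := hlen0 k
    have h2 := hlen0 (k + 1)
    have h3 := hℓ' k
    have h4 := hℓ' (k + 1)
    have : ((k + 1 : ℕ) : ℤ) * κ = k * κ + κ := by push_cast; ring
    rw [this] at h2
    omega
  have hbd : ∀ k, ∀ t : ℕ, t < ℓ k → ¬ Gr τ (v (I k + 1 + t)) := by
    intro k t ht
    have := hℓ' k
    exact (hgap k).bd _ (by omega) (by omega)
  have hend : ∀ k, v (I k + 1 + ℓ k) = v j := by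
    intro k
    have := hℓ' k
    have e : I k + 1 + (ℓ k : ℤ) = J k := by omega
    rw [e, hvJ]
  have hex : ∀ k, ∃ t : ℕ, v (I k + 1 + t) ≠ v (I (k + 1) + 1 + t) := by
    intro k
    refine ⟨ℓ k, ?_⟩
    intro heq
    have := hbd (k + 1) (ℓ k) (by rw [hℓs]; omega)
    rw [← heq, hend] at this
    exact this g.gr
  set m : ℕ → ℕ := fun k => Nat.find (hex k) with hm
  have hm1 : ∀ k, v (I k + 1 + m k) ≠ v (I (k + 1) + 1 + m k) := fun k => Nat.find_spec (hex k)
  have hm2 : ∀ k, ∀ t : ℕ, t < m k → v (I k + 1 + t) = v (I (k + 1) + 1 + t) := by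
    intro k t ht
    by_contra hne
    exact Nat.find_min (hex k) ht hne
  have hm3 : ∀ k, m k ≤ ℓ k := by
    intro k
    apply Nat.find_min'
    intro heq
    have := hbd (k + 1) (ℓ k) (by rw [hℓs]; omega)
    rw [← heq, hend] at this
    exact this g.gr
  have hmuniq : ∀ k n : ℕ, (∀ t : ℕ, t < n → v (I k + 1 + t) = v (I (k + 1) + 1 + t)) →
      v (I k + 1 + n) ≠ v (I (k + 1) + 1 + n) → m k = n := by
    intro k n h1 h2
    apply le_antisymm
    · exact Nat.find_min' _ h2
    · by_contra hcon
      push Not at hcon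
      exact hm1 k (h1 _ hcon)
  set r := rl τ (v i) with hr
  -- letters after `I (k+1)`
  have hA1 : ∀ k, ∀ t : ℕ, t < r → v (I (k + 1) + 1 + t) = v (I (k + 1 + 1) + 1 + t) := by
    intro k t ht
    have hrl := rl_lt hN g.gl
    have key : ∀ a : ℤ, v a = v i → v (RR τ v c a + 1 + t)
        = (τ (v i))[(τ (v i)).length - r + t]'(by omega) := by
      intro a ha
      have h1 := h.val a ((τ (v i)).length - r + t) (by rw [ha]; omega)
      simp only [ha] at h1
      rw [← h1]
      congr 1
      unfold RR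
      rw [h.step, ha]
      omega
    rw [hIs k, hIs (k + 1), key _ (hvI k), key _ (hvI (k + 1))]
  have hA2 : ∀ k, I (k + 1) + 1 + r = c (I k + 1) := by
    intro k
    rw [hIs, RR, hvI]
    ring
  have hA3 : ∀ k, ∀ t : ℕ, t < ℓ k → v (I (k + 1) + 1 + (r + t : ℕ)) = v (I k + 1 + t) := by
    intro k t ht
    have h1 := ((hgap k).cut h).2 t (by omega) (by have := hℓ' k; omega)
    rw [← hA2] at h1
    have e : I (k + 1) + 1 + ((r + t : ℕ) : ℤ) = I (k + 1) + 1 + r + t := by push_cast; ring
    rw [e, h1]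
  -- evolution of `m`
  have hE1 : ∀ k, m k < ℓ k → m (k + 1) = r + m k := by
    intro k hk
    apply hmuniq
    · intro t ht
      by_cases h1 : t < r
      · exact hA1 k t h1
      · obtain ⟨s, rfl⟩ := Nat.exists_eq_add_of_le (not_lt.1 h1)
        rw [hA3 k s (by omega), hA3 (k + 1) s (by have := hℓs k; omega)]
        exact hm2 k s (by omega)
    · rw [hA3 k (m k) hk, hA3 (k + 1) (m k) (by have := hℓs k; omega)]
      exact hm1 k
  have hE2 : r = 0 → ∀ k, m k = ℓ k := by
    intro hr0 k
    apply le_antisymm (hm3 k)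
    by_contra hcon
    push Not at hcon
    have := hA3 k (m k) hcon
    rw [hr0, Nat.zero_add] at this
    exact hm1 k this.symm
  -- dichotomy
  have hD : ∃ k0, ∀ k, k0 ≤ k → m k < m (k + 1) ∧ m (k + 1) ≤ m k + κ := by
    by_cases hall : ∀ k, m k = ℓ k
    · refine ⟨0, fun k _ => ?_⟩
      rw [hall, hall, hℓs]
      omega
    · push Not at hall
      obtain ⟨k0, hk0⟩ := hall
      have hr1 : r ≠ 0 := fun hr0 => hk0 (hE2 hr0 k0)
      have hlt : ∀ k, k0 ≤ k → m k < ℓ k := by
        intro k hk
        induction k, hk using Nat.le_induction with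
        | base => exact lt_of_le_of_ne (hm3 k0) hk0
        | succ k hk ih =>
          rw [hE1 k ih, hℓs]
          omega
      refine ⟨k0, fun k hk => ?_⟩
      rw [hE1 k (hlt k hk)]
      omega
  obtain ⟨k0, hk0⟩ := hD
  have hlft := left_agree hN h hleft g.gl hi
  refine ⟨fun k => I (k + (k0 + 1)), fun k => m (k + (k0 + 1)), κ, ?_, ?_, ?_, ?_, ?_, ?_, ?_⟩
  · intro k
    show Gr τ (v (I _))
    rw [hvI]; exact g.gl
  · intro k t ht
    exact hbd _ _ (lt_of_lt_of_le ht (hm3 _))
  · intro k t ht
    have := hm2 (k + (k0 + 1)) t ht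
    have e : k + 1 + (k0 + 1) = k + (k0 + 1) + 1 := by ring
    simp only [e]
    exact this
  · intro k
    have e : k + 1 + (k0 + 1) = k + (k0 + 1) + 1 := by ring
    simp only [e]
    exact hm1 _
  · intro k
    have e : k + 1 + (k0 + 1) = k + (k0 + 1) + 1 := by ring
    simp only [e]
    exact (hk0 (k + (k0 + 1)) (by omega)).1
  · intro k
    have e : k + 1 + (k0 + 1) = k + (k0 + 1) + 1 := by ring
    simp only [e]
    exact (hk0 (k + (k0 + 1)) (by omega)).2
  · intro k t ht
    have e : k + 1 + (k0 + 1) = k + (k0 + 1) + 1 := by ring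
    simp only [e]
    exact hlft (k + (k0 + 1)) t (by omega)

end

end Pool.Agent.H83.MW
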