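import Pool.Agent.H83.MW.Walk

/-! # MP_1fe246_co: the word to the right of a letter with an old left gap (module MWORD) -/

set_option autoImplicit false
set_option linter.unusedSectionVars false

namespace Pool.Agent.H83.MW

open Pool.Agent.H68.MW Pool.Agent.H88.MW

variable {B : Type} [Fintype B] {τ : B → List B} {v : ℤ → B} {c : ℤ → ℤ}

open Classical in
/-- number of growing letters -/
noncomputable def cg (τ : B → List B) (w : List B) : ℕ := w.countP (fun y => decide (Gr τ y))

theorem cg_append (w w' : List B) : cg τ (w ++ w') = cg τ w + cg τ w' := by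
  unfold cg
  exact List.countP_append

theorem cg_pos {w : List B} {y : B} (hy : y ∈ w) (hg : Gr τ y) : 1 ≤ cg τ w := by
  classical
  unfold cg
  exact List.countP_pos_iff.2 ⟨y, hy, by simpa using hg⟩

theorem cg_flatMap (hN : Nrm τ) (w : List B) :
    cg τ w ≤ cg τ (w.flatMap τ) ∧ w.length + cg τ w ≤ (w.flatMap τ).length := by
  classical
  induction w with
  | nil => simp [cg]
  | cons a w ih =>
    rw [List.flatMap_cons, cg_append, List.length_append, List.length_cons]
    have e : cg τ (a :: w) = cg τ [a] + cg τ w := by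
      rw [← cg_append]
      rfl
    rw [e]
    by_cases ha : Gr τ a
    · obtain ⟨h1, y, hy, hg⟩ := hN.dich a ha
      have h2 := cg_pos hy hg
      have h3 : cg τ [a] = 1 := by simp [cg, ha]
      omega
    · have h1 : τ a = [a] := by
        unfold Gr at ha
        push Not at ha
        exact ha
      have h3 : cg τ [a] = 0 := by simp [cg, ha]
      rw [h1, h3]
      simp only [List.length_singleton]
      omega

/-- the limit words -/
def Mw (τ : B → List B) (s₀ : List B) : ℕ → List B
  | 0 => []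
  | k + 1 => s₀ ++ (Mw τ s₀ k).flatMap τ

theorem Mw_prefix (s₀ : List B) (k : ℕ) : Mw τ s₀ k <+: Mw τ s₀ (k + 1) := by
  induction k with
  | zero => exact List.nil_prefix
  | succ k ih =>
    obtain ⟨t, ht⟩ := ih
    refine ⟨t.flatMap τ, ?_⟩
    change s₀ ++ (Mw τ s₀ k).flatMap τ ++ t.flatMap τ = s₀ ++ (Mw τ s₀ (k + 1)).flatMap τ
    rw [← ht, List.flatMap_append, List.append_assoc]

theorem Mw_prefix_le (s₀ : List B) {k l : ℕ} (hkl : k ≤ l) : Mw τ s₀ k <+: Mw τ s₀ l := by
  induction l, hkl using Nat.le_induction with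
  | base => exact List.prefix_rfl
  | succ l _ ih => exact ih.trans (Mw_prefix s₀ l)

theorem Mw_len (hN : Nrm τ) {s₀ : List B} (hs : ∃ y ∈ s₀, Gr τ y) (k : ℕ) :
    k ≤ cg τ (Mw τ s₀ k) ∧ k * (k + 1) ≤ 2 * (Mw τ s₀ k).length := by
  obtain ⟨y, hy, hg⟩ := hs
  have h1 := cg_pos hy hg
  have h2 : 1 ≤ s₀.length := by
    have := List.length_pos_of_mem hy
    omega
  induction k with
  | zero => simp [Mw]
  | succ k ih =>
    have h3 := cg_flatMap hN (Mw τ s₀ k)
    have e : Mw τ s₀ (k + 1) = s₀ ++ (Mw τ s₀ k).flatMap τ := rfl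
    rw [e, cg_append, List.length_append]
    refine ⟨by omega, ?_⟩
    have h4 : (k + 1) * (k + 1 + 1) = k * (k + 1) + 2 * k + 2 := by ring
    omega

section
variable (hN : Nrm τ) (h : Img τ v v c)
include hN h

/-- the window to the right of the iterated left positions -/
theorem win_Mw {j₁ : ℤ} (hg : Gr τ (v j₁)) (hst : lf τ (v j₁) = v j₁) (k : ℕ) :
    v ((LL τ v c)^[k] j₁) = v j₁ ∧
    win v ((LL τ v c)^[k] j₁ + 1) (Mw τ ((τ (v j₁)).drop (ll τ (v j₁) + 1)) k).length
      = Mw τ ((τ (v j₁)).drop (ll τ (v j₁) + 1)) k := by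
  set x := v j₁ with hx
  set s₀ := (τ x).drop (ll τ x + 1) with hs₀
  induction k with
  | zero => exact ⟨rfl, by simp [Mw, win]⟩
  | succ k ih =>
    obtain ⟨ih1, ih2⟩ := ih
    set J := (LL τ v c)^[k] j₁ with hJ
    have hgJ : Gr τ (v J) := by rw [ih1]; exact hg
    rw [Function.iterate_succ_apply', ← hJ]
    constructor
    · rw [v_LL hN h hgJ, ih1, hst]
    · have e : Mw τ s₀ (k + 1) = s₀ ++ (Mw τ s₀ k).flatMap τ := rfl
      have hl := ll_lt hN hgJ
      rw [ih1] at hl
      have hstep := h.step J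
      rw [ih1] at hstep
      have h1 := win_block h J (ll τ x + 1) s₀.length (by
        rw [ih1, hs₀, List.length_drop]
        omega)
      rw [ih1] at h1
      have h2 : ((τ x).drop (ll τ x + 1)).take s₀.length = s₀ := by
        rw [← hs₀, List.take_length]
      rw [h2] at h1
      have h3 := h.win_image (J + 1) (Mw τ s₀ k).length
      rw [ih2] at h3
      have h4 : LL τ v c J + 1 = c J + ((ll τ x + 1 : ℕ) : ℤ) := by
        unfold LL
        rw [ih1]
        push_cast
        ring
      have h5 : c J + ((ll τ x + 1 : ℕ) : ℤ) + (s₀.length : ℤ) = c (J + 1) := by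
        rw [hs₀, List.length_drop]
        omega
      have h6 : ((Mw τ s₀ k).flatMap τ).length
          = (c (J + 1 + ((Mw τ s₀ k).length : ℤ)) - c (J + 1)).toNat := by
        rw [h3, length_win]
      rw [e, List.length_append, win_add, h4, h1, h5, h6, ← h3]

theorem mword : MWord τ v c := by
  classical
  refine ⟨Set.range (fun x : B => fun t : ℕ => match t with
    | 0 => x
    | t + 1 => ((Mw τ ((τ x).drop (ll τ x + 1)) (t + 1))[t]?).getD x), Set.finite_range _, ?_⟩
  intro s i j hO hnl n hn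
  refine ⟨_, ⟨v j, rfl⟩, ?_⟩
  have hst := (hO.stable hN h).2
  obtain ⟨i₀, j₀, g₀, hi, hj⟩ := hO
  rw [Function.iterate_succ_apply] at hj
  have hg1 := (g₀.child hN h).1.gr
  have hst1 : lf τ (v (LL τ v c j₀)) = v (LL τ v c j₀) := by
    rw [v_LL hN h g₀.gr]
    exact hN.idL _ g₀.gr
  obtain ⟨h1, h2⟩ := win_Mw hN h hg1 hst1 s
  rw [← hj] at h1 h2
  rw [← h1] at h2
  have hgj : Gr τ (v j) := by rw [h1]; exact hg1
  set x := v j with hx
  set s₀ := (τ x).drop (ll τ x + 1) with hs₀
  have hs₀g : ∃ y ∈ s₀, Gr τ y := by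
    have h3 := gr_rl hN hgj
    refine ⟨_, ?_, h3⟩
    have h4 := rl_lt hN hgj
    rw [hs₀, List.mem_iff_getElem]
    refine ⟨(τ x).length - 1 - rl τ x - (ll τ x + 1), ?_, ?_⟩
    · rw [List.length_drop]
      omega
    · rw [List.getElem_drop]
      congr 1
      omega
  have hlen := (Mw_len hN hs₀g s).2
  intro t ht
  cases t with
  | zero => simp [hx]
  | succ t =>
    have h5 : t < (Mw τ s₀ s).length := by
      have : s * (s + 1) = s * s + s := by ring
      omega
    have h6 : t < (Mw τ s₀ (t + 1)).length := by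
      have h7 := (Mw_len hN hs₀g (t + 1)).2
      nlinarith
    have h8 : (Mw τ s₀ s)[t]'h5 = (Mw τ s₀ (t + 1))[t]'h6 := by
      rcases le_total s (t + 1) with hle | hle
      · exact List.IsPrefix.getElem (Mw_prefix_le s₀ hle) h5
      · exact (List.IsPrefix.getElem (Mw_prefix_le s₀ hle) h6).symm
    simp only
    rw [List.getElem?_eq_getElem h6, Option.getD_some, ← h8]
    have h9 : (win v (j + 1) (Mw τ s₀ s).length)[t]'(by rw [length_win]; exact h5)
        = (Mw τ s₀ s)[t]'h5 := by simp only [h2]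
    rw [← h9, getElem_win]
    congr 1
    push_cast
    ring

end

end Pool.Agent.H83.MW
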