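import Pool.Agent.H83.MW.LowerSeq

/-! # MP_1fe246_co: in the pushy case there is a gap with positive rate; linear lower bound -/

set_option autoImplicit false
set_option linter.unusedSectionVars false

namespace Pool.Agent.H83.MW

open Pool.Agent.H68.MW

variable {B : Type} [Fintype B] {τ : B → List B} {v : ℤ → B} {c : ℤ → ℤ}

theorem exists_gap_around (hleft : ∀ x : ℤ, ∃ y, y < x ∧ Gr τ (v y))
    (hright : ∀ x : ℤ, ∃ y, x < y ∧ Gr τ (v y)) (x : ℤ) :
    ∃ i j, Gap τ v i j ∧ i ≤ x ∧ x < j := by
  classical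
  obtain ⟨y, hy, hgy⟩ := hleft (x + 1)
  obtain ⟨y', hy', hgy'⟩ := hright x
  have hex : ∃ n : ℕ, Gr τ (v (x - n)) := ⟨(x - y).toNat, by
    have e : x - (((x - y).toNat : ℕ) : ℤ) = y := by omega
    rw [e]; exact hgy⟩
  have hex' : ∃ n : ℕ, Gr τ (v (x + 1 + n)) := ⟨(y' - x - 1).toNat, by
    have e : x + 1 + (((y' - x - 1).toNat : ℕ) : ℤ) = y' := by omega
    rw [e]; exact hgy'⟩
  refine ⟨x - (Nat.find hex : ℕ), x + 1 + (Nat.find hex' : ℕ),
    ⟨by omega, Nat.find_spec hex, Nat.find_spec hex', ?_⟩, by omega, by omega⟩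
  intro z hz1 hz2
  by_cases hz : z ≤ x
  · have := Nat.find_min hex (m := (x - z).toNat) (by omega)
    have e : x - (((x - z).toNat : ℕ) : ℤ) = z := by omega
    rwa [e] at this
  · have := Nat.find_min hex' (m := (z - x - 1).toNat) (by omega)
    have e : x + 1 + (((z - x - 1).toNat : ℕ) : ℤ) = z := by omega
    rwa [e] at this

section
variable (hN : Nrm τ) (h : Img τ v v c)
include hN h

theorem exists_growing_gap (hc0 : c 0 = 0) (hneg : ∀ x : ℤ, x < 0 → Gr τ (v x))
    (hright : ∀ x : ℤ, ∃ y, x < y ∧ Gr τ (v y))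
    (hpush : ∀ L : ℕ, ∃ x : ℤ, ∀ t : ℕ, t < L → ¬ Gr τ (v (x + t))) :
    ∃ i j, Gap τ v i j ∧ rf τ (v i) = v i ∧ lf τ (v j) = v j ∧ 0 < rl τ (v i) + ll τ (v j) := by
  classical
  have hleft : ∀ x : ℤ, ∃ y, y < x ∧ Gr τ (v y) := fun x => ⟨min (x - 1) (-1), by omega, hneg _ (by omega)⟩
  by_contra hcon
  push Not at hcon
  have hst : ∀ i j, Gap τ v i j → rl τ (rf τ (v i)) = 0 ∧ ll τ (lf τ (v j)) = 0 := by
    intro i j g
    have g' := (g.child hN h).1
    have h1 := hcon _ _ g' (by rw [v_RR hN h g.gl]; exact hN.idR _ g.gl)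
      (by rw [v_LL hN h g.gr]; exact hN.idL _ g.gr)
    rw [v_RR hN h g.gl, v_LL hN h g.gr] at h1
    omega
  obtain ⟨p0, hp0, hgp0⟩ := hright (-1)
  set M : ℤ := max (3 * tl τ) p0 with hM
  have hrl : ∀ x, Gr τ x → rl τ x ≤ tl τ := fun x hx =>
    le_trans (rl_lt hN hx).le (length_le_tl τ x)
  have hll : ∀ x, Gr τ x → ll τ x ≤ tl τ := fun x hx =>
    le_trans (ll_lt hN hx).le (length_le_tl τ x)
  have key : ∀ n : ℕ, ∀ i j, Gap τ v i j → j ≤ n → j - i - 1 ≤ M := by
    intro n
    induction n using Nat.strong_induction_on with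
    | _ n ih =>
      intro i j g hjn
      have hlt := g.lt
      by_cases hj : j < 0
      · have : i = j - 1 := by
          by_contra hne
          exact g.bd (j - 1) (by omega) (by omega) (hneg _ (by omega))
        omega
      · by_cases hi : i < 0
        · have h1 : j ≤ p0 := by
            by_contra hne
            exact g.bd p0 (by omega) (by omega) hgp0
          have h2 : i = -1 := by
            by_contra hne
            exact g.bd (-1) (by omega) (by omega) (hneg _ (by omega))
          omega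
        · rcases g.parent hN h with ⟨m, hm1, hm2, _⟩ | ⟨i', j', g', rfl, rfl⟩
          · have := h.step_le m
            omega
          · have hi' : 0 ≤ i' := by
              by_contra hne
              have h1 := c_lt_RR hN h g'.gl
              have h2 := h.strictMono.monotone (show i' + 1 ≤ 0 by omega)
              omega
            have hlt' := g'.lt
            have hj' : j' < LL τ v c j' := by
              have h1 := c_lt_LL hN h g'.gr
              have h2 := h.add_le 0 i'.toNat
              have h3 := h.step i'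
              have h4 := (hN.dich _ g'.gl).1
              have h5 := h.add_le (i' + 1) (j' - i' - 1).toNat
              have e1 : (0 : ℤ) + (i'.toNat : ℕ) = i' := by omega
              have e2 : i' + 1 + (((j' - i' - 1).toNat : ℕ) : ℤ) = j' := by omega
              rw [e1] at h2
              rw [e2] at h5
              omega
            have hlen := (g'.child hN h).2
            rcases g'.parent hN h with ⟨m, hm1, hm2, _⟩ | ⟨i'', j'', g'', rfl, rfl⟩
            · have h1 := h.step_le m
              have h2 := hrl _ g'.gl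
              have h3 := hll _ g'.gr
              omega
            · have h1 := hst _ _ g''
              rw [v_RR hN h g''.gl, v_LL hN h g''.gr, h1.1, h1.2] at hlen
              have h2 := ih (LL τ v c j'').toNat (by omega) _ _ g' (by omega)
              omega
  obtain ⟨x, hx⟩ := hpush (M.toNat + 3)
  obtain ⟨i, j, g, h1, h2⟩ := exists_gap_around hleft hright x
  have h3 : j - i - 1 ≤ M := by
    rcases le_or_gt 0 j with h0 | h0
    · exact key j.toNat i j g (by omega)
    · exact key 0 i j g (by omega)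
  have h4 : x + (M.toNat + 2 : ℕ) < j := by
    by_contra hne
    have := hx (j - x).toNat (by omega)
    have e : x + (((j - x).toNat : ℕ) : ℤ) = j := by omega
    rw [e] at this
    exact this g.gr
  omega

/-- **Linear lower bound in the pushy case** (normalised morphism). -/
theorem push_lower {A : Type} [Finite A] {f : B → List A} {U : ℤ → A} {c₀ : ℤ → ℤ} (hf : Irred f)
    (h₀ : Img f v U c₀) (hc0 : c 0 = 0) (hneg : ∀ x : ℤ, x < 0 → Gr τ (v x))
    (hright : ∀ x : ℤ, ∃ y, x < y ∧ Gr τ (v y))
    (hpush : ∀ L : ℕ, ∃ x : ℤ, ∀ t : ℕ, t < L → ¬ Gr τ (v (x + t))) :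
    ∃ K : ℕ, ∀ n : ℕ, n ≤ K * (rs U n + 1) := by
  have hleft : ∀ x : ℤ, ∃ y, y < x ∧ Gr τ (v y) := fun x => ⟨min (x - 1) (-1), by omega, hneg _ (by omega)⟩
  obtain ⟨i, j, g, hi, hj, hk⟩ := exists_growing_gap hN h hc0 hneg hright hpush
  obtain ⟨I, m, κ, hL⟩ := lower_seq hN h hleft g hi hj hk
  exact lower_abs hf h₀ hL

end

end Pool.Agent.H83.MW
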