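import Pool.Agent.H83.MW.Run
import Pool.Agent.H88.MW.Cover

/-! # MP_1fe246_co: comparison of an old run with a young run -/

set_option autoImplicit false
set_option linter.unusedSectionVars false

namespace Pool.Agent.H83.MW

open Pool.Agent.H68.MW Pool.Agent.H88.MW

variable {B : Type} [Fintype B] {τ : B → List B} {v : ℤ → B} {c : ℤ → ℤ}

section
variable (hN : Nrm τ) (h : Img τ v v c)

theorem Old.zero {i j : ℤ} (g : Gap τ v i j) : Old τ v c 0 i j := ⟨i, j, g, rfl, rfl⟩

include h in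
theorem ageT_zero {i j m : ℤ} (g : Gap τ v i j) (h1 : c m ≤ i) (h2 : j < c (m + 1)) :
    AgeT τ v c 0 (v m) (i - c m).toNat (j - c m).toNat i j := by
  have h3 := h.step m
  have h4 := g.lt
  refine ⟨m, rfl, by omega, by omega, ?_, ?_, ?_⟩
  · have e1 : c m + (((i - c m).toNat : ℕ) : ℤ) = i := by omega
    have e2 : c m + (((j - c m).toNat : ℕ) : ℤ) = j := by omega
    rw [e1, e2]; exact g
  · simp only [Function.iterate_zero, id_eq]; omega
  · simp only [Function.iterate_zero, id_eq]; omega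

include hN h

theorem ageT_of_iter {a : ℕ} {i' j' m : ℤ} (g : Gap τ v i' j') (h1 : c m ≤ i') (h2 : j' < c (m + 1)) :
    AgeT τ v c a (v m) (i' - c m).toNat (j' - c m).toNat ((RR τ v c)^[a] i') ((LL τ v c)^[a] j') := by
  obtain ⟨k, hk1, hk2, hk3, hk4, hk5, hk6⟩ := ageT_zero h g h1 h2
  simp only [Function.iterate_zero, id_eq] at hk5 hk6
  refine ⟨k, hk1, hk2, hk3, hk4, ?_, ?_⟩
  · rw [← hk5]
  · rw [← hk6]

/-- a gap of finite age has an exact age, which is the largest age -/
theorem exact_of_fin {i j : ℤ} (g : Gap τ v i j) {n : ℕ} (hn : ¬ Old τ v c n i j) :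
    ∃ a < n, (∀ s, Old τ v c s i j → s ≤ a) ∧ ∃ y t t', AgeT τ v c a y t t' i j := by
  classical
  have hex : ∃ n, ¬ Old τ v c n i j := ⟨n, hn⟩
  obtain ⟨k, hk, hkmin⟩ : ∃ k, ¬ Old τ v c k i j ∧ ∀ l < k, Old τ v c l i j :=
    ⟨Nat.find hex, Nat.find_spec hex, fun l hl => not_not.1 (Nat.find_min hex hl)⟩
  rcases Nat.eq_zero_or_pos k with h0 | h0
  · subst h0
    exact absurd (Old.zero g) hk
  · obtain ⟨a, rfl⟩ := Nat.exists_eq_succ_of_ne_zero h0.ne'
    have hmax : ∀ s, Old τ v c s i j → s ≤ a := by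
      intro s hs
      by_contra hcon
      exact hk (hs.mono hN h (by omega))
    refine ⟨a, ?_, hmax, ?_⟩
    · by_contra hcon
      exact hn (hkmin n (by omega))
    · obtain ⟨i', j', g', rfl, rfl⟩ := hkmin a (by omega)
      rcases g'.parent hN h with ⟨m, hm1, hm2, _⟩ | ⟨i'', j'', g'', rfl, rfl⟩
      · exact ⟨_, _, _, ageT_of_iter hN h g' hm1 hm2⟩
      · exfalso
        have : Old τ v c (a + 1) ((RR τ v c)^[a] (RR τ v c i'')) ((LL τ v c)^[a] (LL τ v c j'')) :=
          ⟨i'', j'', g'', rfl, rfl⟩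
        have := hmax _ this
        omega

end

theorem rf_iter (hN : Nrm τ) {x : B} (hx : Gr τ x) (a : ℕ) : (rf τ)^[a + 1] x = rf τ x := by
  induction a with
  | zero => rfl
  | succ a ih => rw [Function.iterate_succ_apply', ih, hN.idR x hx]

theorem lf_iter (hN : Nrm τ) {x : B} (hx : Gr τ x) (a : ℕ) : (lf τ)^[a + 1] x = lf τ x := by
  induction a with
  | zero => rfl
  | succ a ih => rw [Function.iterate_succ_apply', ih, hN.idL x hx]

/-- `runW` starts with copies of `rho` -/
theorem runW_shift (hN : Nrm τ) {y : B} {t t' : ℕ} (hx : Gr τ (lt' τ y t)) (a d k : ℕ)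
    (hk : k < (runW τ y t t' (a + 1)).length) :
    (runW τ y t t' (a + 1 + d))[d * rl τ (rf τ (lt' τ y t)) + k]? = (runW τ y t t' (a + 1))[k]? ∧
      d * rl τ (rf τ (lt' τ y t)) + (runW τ y t t' (a + 1)).length ≤ (runW τ y t t' (a + 1 + d)).length := by
  induction d with
  | zero => simp
  | succ d ih =>
    have e : runW τ y t t' (a + 1 + (d + 1)) = rho τ (rf τ (lt' τ y t)) ++ runW τ y t t' (a + 1 + d) ++
        lam τ ((lf τ)^[a + 1 + d] (lt' τ y t')) := by
      rw [← rf_iter hN hx (a + d)]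
      have : a + d + 1 = a + 1 + d := by ring
      rw [this]
      rfl
    have hl : (rho τ (rf τ (lt' τ y t))).length = rl τ (rf τ (lt' τ y t)) :=
      length_rho hN (gr_rf hN hx)
    rw [e]
    constructor
    · rw [List.append_assoc, List.getElem?_append_right (by rw [hl]; nlinarith)]
      rw [hl]
      have e2 : (d + 1) * rl τ (rf τ (lt' τ y t)) + k - rl τ (rf τ (lt' τ y t))
          = d * rl τ (rf τ (lt' τ y t)) + k := by
        have : (d + 1) * rl τ (rf τ (lt' τ y t)) = d * rl τ (rf τ (lt' τ y t)) + rl τ (rf τ (lt' τ y t)) := by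
          ring
        omega
      rw [e2, List.getElem?_append_left (by omega)]
      exact ih.1
    · simp only [List.length_append, hl]
      have : (d + 1) * rl τ (rf τ (lt' τ y t)) = d * rl τ (rf τ (lt' τ y t)) + rl τ (rf τ (lt' τ y t)) := by
        ring
      omega

theorem perR_mul {x : B} (d k : ℕ) : perR τ x (d * rl τ x + k) = perR τ x k := by
  induction d with
  | zero => simp
  | succ d ih =>
    have : (d + 1) * rl τ x + k = rl τ x + (d * rl τ x + k) := by ring
    rw [this, perR_add, ih]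

/-- deviation of the words of a type from the periodic word -/
theorem dev (hN : Nrm τ) {y : B} {t t' : ℕ} (hx : Gr τ (lt' τ y t)) :
    (∀ a k : ℕ, k < (runW τ y t t' (a + 1)).length →
      (runW τ y t t' (a + 1))[k]? = some (perR τ (rf τ (lt' τ y t)) k)) ∨
    ∃ D : ℕ, ∀ a l : ℕ, l ≤ (runW τ y t t' (a + 1)).length →
      (∀ k < l, (runW τ y t t' (a + 1))[k]? = some (perR τ (rf τ (lt' τ y t)) k)) →
      l ≤ a * rl τ (rf τ (lt' τ y t)) + D := by
  by_cases hall : ∀ a k : ℕ, k < (runW τ y t t' (a + 1)).length →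
      (runW τ y t t' (a + 1))[k]? = some (perR τ (rf τ (lt' τ y t)) k)
  · exact Or.inl hall
  · right
    push Not at hall
    obtain ⟨a₀, k₀, hk₀, hne⟩ := hall
    refine ⟨k₀ + (runW τ y t t' (a₀ + 1)).length, ?_⟩
    intro a l hl hpure
    rcases lt_or_ge a a₀ with ha | ha
    · obtain ⟨d, rfl⟩ := Nat.exists_eq_add_of_le ha.le
      rcases Nat.eq_zero_or_pos l with h0 | h0
      · omega
      · have := (runW_shift hN hx a d 0 (t' := t') (by omega)).2
        have e : a + d + 1 = a + 1 + d := by ring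
        rw [e]
        omega
    · obtain ⟨d, rfl⟩ := Nat.exists_eq_add_of_le ha
      by_contra hcon
      have h1 := (runW_shift hN hx a₀ d k₀ (t' := t') hk₀).1
      have h2 : (a₀ + d) * rl τ (rf τ (lt' τ y t))
        = a₀ * rl τ (rf τ (lt' τ y t)) + d * rl τ (rf τ (lt' τ y t)) := by ring
      have h3 := hpure (d * rl τ (rf τ (lt' τ y t)) + k₀) (by
        have := Nat.zero_le (a₀ * rl τ (rf τ (lt' τ y t)))
        omega)
      have e : a₀ + d + 1 = a₀ + 1 + d := by ring
      rw [e, h1, perR_mul] at h3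
      exact hne h3

/-- uniform version of `dev` over the finitely many types -/
theorem dev_unif (hN : Nrm τ) : ∃ D : ℕ, ∀ (y : B) (t t' : ℕ), t < tl τ → t' < tl τ → Gr τ (lt' τ y t) →
    (∀ a k : ℕ, k < (runW τ y t t' (a + 1)).length →
      (runW τ y t t' (a + 1))[k]? = some (perR τ (rf τ (lt' τ y t)) k)) ∨
    ∀ a l : ℕ, l ≤ (runW τ y t t' (a + 1)).length →
      (∀ k < l, (runW τ y t t' (a + 1))[k]? = some (perR τ (rf τ (lt' τ y t)) k)) →
      l ≤ a * rl τ (rf τ (lt' τ y t)) + D := by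
  classical
  have key : ∀ T : B × Fin (tl τ) × Fin (tl τ), ∃ D : ℕ, Gr τ (lt' τ T.1 T.2.1) →
    (∀ a k : ℕ, k < (runW τ T.1 T.2.1 T.2.2 (a + 1)).length →
      (runW τ T.1 T.2.1 T.2.2 (a + 1))[k]? = some (perR τ (rf τ (lt' τ T.1 T.2.1)) k)) ∨
    ∀ a l : ℕ, l ≤ (runW τ T.1 T.2.1 T.2.2 (a + 1)).length →
      (∀ k < l, (runW τ T.1 T.2.1 T.2.2 (a + 1))[k]? = some (perR τ (rf τ (lt' τ T.1 T.2.1)) k)) →
      l ≤ a * rl τ (rf τ (lt' τ T.1 T.2.1)) + D := by
    intro T
    by_cases hx : Gr τ (lt' τ T.1 T.2.1)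
    · rcases dev hN (y := T.1) (t := T.2.1) (t' := T.2.2) hx with h1 | ⟨D, h1⟩
      · exact ⟨0, fun _ => Or.inl h1⟩
      · exact ⟨D, fun _ => Or.inr h1⟩
    · exact ⟨0, fun hc => absurd hc hx⟩
  choose D hD using key
  refine ⟨Finset.univ.sup D, fun y t t' ht ht' hx => ?_⟩
  rcases hD (y, ⟨t, ht⟩, ⟨t', ht'⟩) hx with h1 | h1
  · exact Or.inl h1
  · right
    intro a l hl hpure
    have h2 := h1 a l hl hpure
    have h3 : D (y, ⟨t, ht⟩, ⟨t', ht'⟩) ≤ Finset.univ.sup D := Finset.le_sup (Finset.mem_univ _)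
    simp only at h2
    omega

section
variable (hN : Nrm τ) (h : Img τ v v c)
include hN h

/-- the tail of a block of level `L+1` -/
theorem tail_len (L : ℕ) {m : ℤ} : ∀ {z : ℤ}, (c^[L + 1]) m ≤ z → z < (c^[L + 1]) (m + 1) → Gr τ (v z) →
    (∀ w, z < w → w < (c^[L + 1]) (m + 1) → ¬ Gr τ (v w)) →
    (c^[L + 1]) (m + 1) - 1 - z ≤ tl τ + L * rl τ (v z) ∧ rf τ (v z) = v z := by
  induction L with
  | zero =>
    intro z h1 h2 hz hlast
    simp only [zero_add, Function.iterate_one] at h1 h2 hlast ⊢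
    obtain ⟨hm, h3, h4⟩ := gr_parent hN h hz h1 h2
    have h5 : z = RR τ v c m := by
      by_contra hne
      have h6 := c_lt_RR hN h hm
      refine hlast (RR τ v c m) (by omega) h6.2 ?_
      rw [v_RR hN h hm]
      exact gr_rf hN hm
    subst h5
    rw [v_RR hN h hm]
    refine ⟨?_, hN.idR _ hm⟩
    have h6 := rl_le hN (v := v) (c := c) h (v m) hm
    unfold RR
    push_cast
    omega
  | succ L ih =>
    intro z h1 h2 hz hlast
    rw [Function.iterate_succ_apply'] at h1 h2 hlast ⊢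
    obtain ⟨z', hz1, hz2⟩ := h.exists_block z
    obtain ⟨hm, h3, h4⟩ := gr_parent hN h hz hz1 hz2
    have h7 : (c^[L + 1]) m ≤ z' := by
      by_contra hcon
      have := h.strictMono.monotone (show z' + 1 ≤ (c^[L + 1]) m by omega)
      omega
    have h8 : z' < (c^[L + 1]) (m + 1) := by
      by_contra hcon
      have := h.strictMono.monotone (show (c^[L + 1]) (m + 1) ≤ z' by omega)
      omega
    have h9 : c (z' + 1) ≤ c ((c^[L + 1]) (m + 1)) := h.strictMono.monotone (by omega)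
    have hlast' : ∀ w, z' < w → w < (c^[L + 1]) (m + 1) → ¬ Gr τ (v w) := by
      intro w hw1 hw2 hw3
      have h5 := c_lt_LL hN h hw3
      have h6 : c (z' + 1) ≤ c w := h.strictMono.monotone (by omega)
      have h10 : c (w + 1) ≤ c ((c^[L + 1]) (m + 1)) := h.strictMono.monotone (by omega)
      refine hlast (LL τ v c w) (by omega) (by omega) ?_
      rw [v_LL hN h hw3]
      exact gr_lf hN hw3
    obtain ⟨ih1, ih2⟩ := ih h7 h8 hm hlast'
    have h5 : z = RR τ v c z' := by
      by_contra hne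
      have h6 := c_lt_RR hN h hm
      refine hlast (RR τ v c z') (by omega) (by omega) ?_
      rw [v_RR hN h hm]
      exact gr_rf hN hm
    subst h5
    rw [v_RR hN h hm, ih2]
    refine ⟨?_, ih2⟩
    obtain ⟨n, hn⟩ : ∃ n : ℕ, (c^[L + 1]) (m + 1) = z' + 1 + n :=
      ⟨((c^[L + 1]) (m + 1) - z' - 1).toNat, by omega⟩
    have h10 := (cut_run h (i := z' + 1) (n := n) (fun t ht => hlast' _ (by omega) (by omega))).1 n le_rfl
    rw [hn] at ih1 ⊢
    rw [h10]
    have e : (((L + 1 : ℕ) : ℤ)) * (rl τ (v z') : ℤ) = L * rl τ (v z') + rl τ (v z') := by push_cast; ring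
    rw [e]
    unfold RR
    omega

/-- transfer of a gap along an equality of windows -/
theorem gap_transfer {x y : ℤ} {r : ℕ} (hW : ∀ t : ℕ, t < r → v (x + t) = v (y + t)) {i j : ℤ}
    (g : Gap τ v i j) (h1 : y ≤ i) (h2 : j < y + r) : Gap τ v (i - y + x) (j - y + x) := by
  have hW' : ∀ z : ℤ, y ≤ z → z < y + r → v (z - y + x) = v z := by
    intro z hz1 hz2
    have := hW (z - y).toNat (by omega)
    have e1 : x + (((z - y).toNat : ℕ) : ℤ) = z - y + x := by omega
    have e2 : y + (((z - y).toNat : ℕ) : ℤ) = z := by omega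
    rwa [e1, e2] at this
  have h3 := g.lt
  refine ⟨by omega, ?_, ?_, ?_⟩
  · rw [hW' i h1 (by omega)]; exact g.gl
  · rw [hW' j (by omega) h2]; exact g.gr
  · intro z hz1 hz2
    have := hW' (z - x + y) (by omega) (by omega)
    have e : z - x + y - y + x = z := by ring
    rw [e] at this
    rw [this]
    exact g.bd _ (by omega) (by omega)

end

end Pool.Agent.H83.MW
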