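import Pool.Agent.H83.MW.RunCmp

/-! # MP_1fe246_co: the walk to the right of an old gap -/

set_option autoImplicit false
set_option linter.unusedSectionVars false

namespace Pool.Agent.H83.MW

open Pool.Agent.H68.MW Pool.Agent.H88.MW

variable {B : Type} [Fintype B] {τ : B → List B} {v : ℤ → B} {c : ℤ → ℤ}

/-- statement of module GAPWORD -/
def GapWord {B : Type} (τ : B → List B) (v : ℤ → B) (c : ℤ → ℤ) : Prop :=
  ∃ S : Set (ℕ → B), S.Finite ∧ ∀ (a : ℕ) (y : B) (t t' : ℕ) (i j : ℤ), AgeT τ v c a y t t' i j →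
    ∃ p : ℤ, i + 1 ≤ p ∧ p ≤ j ∧ (rl τ (v i) = 0 → p = i + 1) ∧
      (∀ p' : ℤ, p ≤ p' → p' ≤ j → ∃ Q ∈ S, ∀ t : ℕ, p' + t < j → v (p' + t) = Q t) ∧
      (∀ p' : ℤ, i + 1 ≤ p' → p' ≤ p → ∃ Q ∈ S, ∀ t : ℕ, i < p' - 1 - t → v (p' - 1 - t) = Q t)

/-- statement of module MWORD -/
def MWord {B : Type} (τ : B → List B) (v : ℤ → B) (c : ℤ → ℤ) : Prop :=
  ∃ S : Set (ℕ → B), S.Finite ∧ ∀ (s : ℕ) (i j : ℤ), Old τ v c (s + 1) i j →
    ll τ (v j) + rl τ (v j) + 1 < (τ (v j)).length → ∀ n : ℕ, 2 * n ≤ s * s →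
      ∃ Q ∈ S, ∀ t : ℕ, t < n → v (j + t) = Q t

section
variable (hN : Nrm τ) (h : Img τ v v c)
include hN h

/-- RUNCMP: an old run that is cut by the right end of a window which occurs inside a block of
small level -/
theorem runcmp (hG : GapWord τ v c) : ∃ (S : Set (ℕ → B)) (C : ℕ), S.Finite ∧
    ∀ (x y : ℤ) (r L s : ℕ) (j j' : ℤ), (∀ t : ℕ, t < r → v (x + t) = v (y + t)) → InBlk c L x r →
      Gap τ v j j' → (∃ n, ¬ Old τ v c n j j') → Old τ v c s j j' → y ≤ j → j < y + r → y + r ≤ j' →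
      L + C ≤ s → ∃ Q ∈ S, ∀ t : ℕ, j + 1 + t < y + r → v (j + 1 + t) = Q t := by
  classical
  obtain ⟨S, hS, hgw⟩ := hG
  obtain ⟨D, hD⟩ := dev_unif hN
  refine ⟨S ∪ Set.range (fun x : B => perR τ x), 3 * tl τ + D + 5, hS.union (Set.finite_range _), ?_⟩
  intro x y r L s j j' hW hL g hfin hO h1 h2 h3 hs
  obtain ⟨n, hn⟩ := hfin
  obtain ⟨A, _, hA, y₀, t₀, t₀', hAge⟩ := exact_of_fin hN h g hn
  by_cases hr : rl τ (v j) = 0
  · obtain ⟨p, hp1, hp2, hp3, hp4, _⟩ := hgw A y₀ t₀ t₀' j j' hAge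
    obtain ⟨Q, hQ, hQ'⟩ := hp4 (j + 1) (by rw [hp3 hr]) (by have := g.lt; omega)
    exact ⟨Q, Or.inl hQ, fun t ht => hQ' t (by omega)⟩
  · refine ⟨perR τ (v j), Or.inr ⟨_, rfl⟩, ?_⟩
    obtain ⟨s, rfl⟩ : ∃ s', s = s' + 1 := ⟨s - 1, by omega⟩
    have hper := hO.per hN h
    have hrl : 1 ≤ rl τ (v j) := Nat.one_le_iff_ne_zero.2 hr
    by_cases hshort : y + r - j - 1 ≤ ((s * rl τ (v j) : ℕ) : ℤ)
    · intro t ht
      exact hper t (by omega)
    · push Not at hshort
      obtain ⟨m, hm1, hm2⟩ := hL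
      -- the young side
      have hxj : v (j - y + x) = v j := by
        have := hW (j - y).toNat (by omega)
        have e1 : x + (((j - y).toNat : ℕ) : ℤ) = j - y + x := by omega
        have e2 : y + (((j - y).toNat : ℕ) : ℤ) = j := by omega
        rwa [e1, e2] at this
      have hxt : ∀ t : ℕ, j + 1 + t < y + r → v (j - y + x + 1 + t) = v (j + 1 + t) := by
        intro t ht
        have := hW ((j - y).toNat + 1 + t) (by omega)
        have e1 : x + (((j - y).toNat + 1 + t : ℕ) : ℤ) = j - y + x + 1 + t := by omega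
        have e2 : y + (((j - y).toNat + 1 + t : ℕ) : ℤ) = j + 1 + t := by omega
        rwa [e1, e2] at this
      have hng : ∀ w, j - y + x < w → w < x + r → ¬ Gr τ (v w) := by
        intro w hw1 hw2
        have := hxt (w - (j - y + x) - 1).toNat (by omega)
        have e1 : j - y + x + 1 + (((w - (j - y + x) - 1).toNat : ℕ) : ℤ) = w := by omega
        rw [e1] at this
        rw [this]
        exact g.bd _ (by omega) (by omega)
      have hcs : (c^[L]) m ≤ j - y + x := by omega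
      have hLs : L * rl τ (v j) ≤ s * rl τ (v j) := Nat.mul_le_mul_right _ (by omega)
      by_cases hnext : ∃ w, j - y + x < w ∧ w < (c^[L]) (m + 1) ∧ Gr τ (v w)
      · -- complete gap on the young side
        obtain ⟨w, hw, hwmin⟩ : ∃ w, (j - y + x < w ∧ w < (c^[L]) (m + 1) ∧ Gr τ (v w)) ∧
            ∀ w', j - y + x < w' → w' < w → ¬ Gr τ (v w') := by
          have hex : ∃ k : ℕ, j - y + x + 1 + k < (c^[L]) (m + 1) ∧ Gr τ (v (j - y + x + 1 + k)) := by
            obtain ⟨w, hw1, hw2, hw3⟩ := hnext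
            refine ⟨(w - (j - y + x) - 1).toNat, ?_⟩
            have e1 : j - y + x + 1 + (((w - (j - y + x) - 1).toNat : ℕ) : ℤ) = w := by omega
            rw [e1]
            exact ⟨hw2, hw3⟩
          refine ⟨j - y + x + 1 + (Nat.find hex : ℕ), ⟨by omega, (Nat.find_spec hex).1,
            (Nat.find_spec hex).2⟩, ?_⟩
          intro w' hw1 hw2 hw3
          refine Nat.find_min hex (m := (w' - (j - y + x) - 1).toNat) (by omega) ?_
          have e1 : j - y + x + 1 + (((w' - (j - y + x) - 1).toNat : ℕ) : ℤ) = w' := by omega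
          rw [e1]
          have := (Nat.find_spec hex).1
          exact ⟨by omega, hw3⟩
        have hgap : Gap τ v (j - y + x) w :=
          ⟨hw.1, by rw [hxj]; exact g.gl, hw.2.2, hwmin⟩
        have hwr : x + r ≤ w := by
          by_contra hcon
          exact hng w hw.1 (by omega) hw.2.2
        obtain ⟨a, ha, y₁, t₁, t₁', hT⟩ := gap_ageT hN h hgap hcs hw.2.1
        have hrun := hT.run hN h
        have hlet := hT.letters hN h
        have hlen := length_runW hN h hT
        -- bounds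
        have hty : t₁ < tl τ ∧ t₁' < tl τ ∧ Gr τ (lt' τ y₁ t₁) ∧ t₁' < (τ y₁).length := by
          obtain ⟨m', hm', htt, ht', g', _, _⟩ := hT
          have h5 := length_le_tl τ y₁
          refine ⟨by omega, by omega, ?_, ht'⟩
          have h6 := g'.gl
          rw [h.val m' t₁ (by rw [hm']; omega)] at h6
          simp only [hm'] at h6
          unfold lt'
          rw [List.getElem?_eq_getElem (by omega)]
          exact h6
        cases a with
        | zero =>
          exfalso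
          obtain ⟨m', hm', htt, ht', g', he1, he2⟩ := hT
          simp only [Function.iterate_zero, id_eq] at he1 he2
          have h5 := length_le_tl τ y₁
          have h6 : s * 1 ≤ s * rl τ (v j) := Nat.mul_le_mul_left _ hrl
          omega
        | succ a =>
          have hst : rf τ (lt' τ y₁ t₁) = v j := by
            rw [← hxj, hlet.1, rf_iter hN hty.2.2.1]
          have hsa : (a + 1) * rl τ (v j) + (D + 3) * 1 ≤ s * rl τ (v j) := by
            have h7 : (D + 3) * 1 ≤ (D + 3) * rl τ (v j) := Nat.mul_le_mul_left _ hrl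
            have h8 : (a + 1 + (D + 3)) * rl τ (v j) ≤ s * rl τ (v j) := Nat.mul_le_mul_right _ (by omega)
            have h9 : (a + 1 + (D + 3)) * rl τ (v j) = (a + 1) * rl τ (v j) + (D + 3) * rl τ (v j) := by ring
            omega
          have hget : ∀ t : ℕ, j + 1 + t < y + r →
              (runW τ y₁ t₁ t₁' (a + 1))[t]? = some (v (j + 1 + t)) := by
            intro t ht
            rw [← hrun, List.getElem?_eq_getElem (by rw [length_win]; omega), getElem_win, hxt t ht]
          rcases hD y₁ t₁ t₁' hty.1 hty.2.1 hty.2.2.1 with h5 | h5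
          · intro t ht
            have h6 := h5 a t (by rw [hlen]; omega)
            rw [hget t ht, hst] at h6
            exact Option.some.inj h6
          · exfalso
            have h6 := h5 a (s * rl τ (v j)) (by rw [hlen]; omega) (by
              intro k hk
              rw [hget k (by omega), hst, hper k hk])
            rw [hst] at h6
            have h7 : (a + 1) * rl τ (v j) = a * rl τ (v j) + rl τ (v j) := by ring
            omega
      · -- the young run is the tail of the block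
        push Not at hnext
        exfalso
        cases L with
        | zero =>
          simp only [Function.iterate_zero, id_eq] at hm1 hm2
          have := Nat.zero_le (s * rl τ (v j))
          omega
        | succ L =>
          have h5 := (tail_len hN h L (m := m) (z := j - y + x) hcs (by omega)
            (by rw [hxj]; exact g.gl) (fun w hw1 hw2 => hnext w hw1 hw2)).1
          rw [hxj] at h5
          have h6 : (L + (3 * tl τ)) * rl τ (v j) ≤ s * rl τ (v j) := Nat.mul_le_mul_right _ (by omega)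
          have h7 : (L + (3 * tl τ)) * rl τ (v j) = L * rl τ (v j) + (3 * tl τ) * rl τ (v j) := by ring
          have h8 : (3 * tl τ) * 1 ≤ (3 * tl τ) * rl τ (v j) := Nat.mul_le_mul_left _ hrl
          have h9 : ((L * rl τ (v j) : ℕ) : ℤ) = (L : ℤ) * (rl τ (v j) : ℤ) := by push_cast; ring
          rw [← h9] at h5
          omega

/-- the right gap of a letter that has an old left gap, when the image of the letter contains only
one growing letter -/
theorem old_right {s : ℕ} {i j j' : ℤ} (hR : ∀ x, ∃ y > x, Gr τ (v y)) (hO : Old τ v c (s + 1) i j)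
    (hlin : ll τ (v j) + rl τ (v j) + 1 = (τ (v j)).length) (g : Gap τ v j j') : Old τ v c s j j' := by
  classical
  obtain ⟨i₀, j₀, g₀, hi, hj⟩ := hO
  rw [Function.iterate_succ_apply] at hj
  have hg1 := (g₀.child hN h).1
  have hst : ∀ k : ℕ, v ((LL τ v c)^[k] (LL τ v c j₀)) = v (LL τ v c j₀) ∧
      Gr τ (v ((LL τ v c)^[k] (LL τ v c j₀))) := by
    intro k
    induction k with
    | zero => exact ⟨rfl, hg1.gr⟩
    | succ k ih =>
      rw [Function.iterate_succ_apply', v_LL hN h ih.2, ih.1, v_LL hN h g₀.gr]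
      refine ⟨hN.idL _ g₀.gr, ?_⟩
      rw [hN.idL _ g₀.gr]
      exact gr_lf hN g₀.gr
  have hvj : v j = v (LL τ v c j₀) := by rw [hj]; exact (hst s).1
  -- the right gap of `LL j₀`
  obtain ⟨k₀, hk₀⟩ : ∃ k₀, Gap τ v (LL τ v c j₀) k₀ := by
    obtain ⟨w, hw1, hw2⟩ := hR (LL τ v c j₀)
    have hex : ∃ k : ℕ, Gr τ (v (LL τ v c j₀ + 1 + k)) := by
      refine ⟨(w - LL τ v c j₀ - 1).toNat, ?_⟩
      have e1 : LL τ v c j₀ + 1 + (((w - LL τ v c j₀ - 1).toNat : ℕ) : ℤ) = w := by omega
      rw [e1]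
      exact hw2
    refine ⟨LL τ v c j₀ + 1 + (Nat.find hex : ℕ), by omega, hg1.gr, Nat.find_spec hex, ?_⟩
    intro z hz1 hz2 hz3
    refine Nat.find_min hex (m := (z - LL τ v c j₀ - 1).toNat) (by omega) ?_
    have e1 : LL τ v c j₀ + 1 + (((z - LL τ v c j₀ - 1).toNat : ℕ) : ℤ) = z := by omega
    rw [e1]
    exact hz3
  have hLR : ∀ k : ℕ, (RR τ v c)^[k] (LL τ v c j₀) = (LL τ v c)^[k] (LL τ v c j₀) := by
    intro k
    induction k with
    | zero => rfl
    | succ k ih =>
      rw [Function.iterate_succ_apply', Function.iterate_succ_apply', ih]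
      have h1 := (hst k).1
      rw [← hvj] at h1
      have h2 := h.step ((LL τ v c)^[k] (LL τ v c j₀))
      unfold RR LL at *
      rw [h1] at *
      omega
  have hO' : Old τ v c s j ((LL τ v c)^[s] k₀) := ⟨_, _, hk₀, by rw [hLR s]; exact hj, rfl⟩
  have g' := hO'.gap hN h
  have : j' = (LL τ v c)^[s] k₀ := by
    rcases lt_trichotomy j' ((LL τ v c)^[s] k₀) with h1 | h1 | h1
    · exact absurd g.gr (g'.bd _ g.lt h1)
    · exact h1
    · exact absurd g'.gr (g.bd _ g'.lt h1)
  rw [this]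
  exact hO'

end

/-- prepending at most `D` letters -/
def pre {B : Type} (D : ℕ) (S : Set (ℕ → B)) : Set (ℕ → B) :=
  Set.range (fun z : Fin (D + 1) × (Fin (D + 1) → B) × S =>
    fun t : ℕ => if t < z.1.val then z.2.1 (Fin.ofNat (D + 1) t) else z.2.2.val (t - z.1.val))

theorem pre_finite (D : ℕ) {S : Set (ℕ → B)} (hS : S.Finite) : (pre D S).Finite := by
  have : Finite S := hS
  exact Set.finite_range _

theorem pre_good {D : ℕ} {S : Set (ℕ → B)} {V : ℤ → B} {p q z : ℤ} (h1 : p ≤ q) (h2 : q ≤ p + D)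
    (hQ : ∃ Q ∈ S, ∀ t : ℕ, q + t < z → V (q + t) = Q t) :
    ∃ Q ∈ pre D S, ∀ t : ℕ, p + t < z → V (p + t) = Q t := by
  obtain ⟨Q, hQ, hQ'⟩ := hQ
  refine ⟨_, ⟨(⟨(q - p).toNat, by omega⟩, fun k => V (p + k.val), ⟨Q, hQ⟩), rfl⟩, ?_⟩
  intro t ht
  simp only
  split
  · next hlt =>
    have : (Fin.ofNat (D + 1) t).val = t := by
      simp only [Fin.val_ofNat]
      exact Nat.mod_eq_of_lt (by omega)
    rw [this]
  · next hlt =>
    have := hQ' (t - (q - p).toNat) (by omega)
    rw [← this]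
    congr 1
    omega

theorem pre_mono {D : ℕ} {S : Set (ℕ → B)} : S ⊆ pre D S := by
  intro Q hQ
  have : Nonempty B := ⟨Q 0⟩
  refine ⟨(⟨0, by omega⟩, fun _ => Q 0, ⟨Q, hQ⟩), ?_⟩
  funext t
  simp

section
variable (hN : Nrm τ) (h : Img τ v v c)
include hN h

/-- one step of the walk -/
theorem walk_aux (hG : GapWord τ v c) (hM : MWord τ v c) (hR : ∀ x, ∃ y > x, Gr τ (v y)) :
    ∃ (S : Set (ℕ → B)) (C : ℕ), S.Finite ∧ ∀ (x y : ℤ) (r L s : ℕ) (i j : ℤ),
      (∀ t : ℕ, t < r → v (x + t) = v (y + t)) → InBlk c L x r →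
      (∀ i' j', Gap τ v i' j' → i' < y + r → y ≤ j' → ∃ n, ¬ Old τ v c n i' j') →
      Old τ v c s i j → y ≤ j → j < y + r → L + C ≤ s → 16 * (r + 1) ≤ s ^ 2 →
      (∃ Q ∈ S, ∀ t : ℕ, j + t < y + r → v (j + t) = Q t) ∨
      (∃ j', Old τ v c (s - 1) j j' ∧ j' < y + r ∧ rl τ (v j) + ll τ (v j') = 0 ∧
        j' - j - 1 ≤ 3 * tl τ ∧ ll τ (v j) + rl τ (v j) + 1 = (τ (v j)).length) := by
  classical
  obtain ⟨S₁, C₁, hS₁, hrc⟩ := runcmp hN h hG
  obtain ⟨S₂, hS₂, hmw⟩ := hM
  refine ⟨pre 1 S₁ ∪ S₂, C₁ + 3 * tl τ + 5, (pre_finite 1 hS₁).union hS₂, ?_⟩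
  intro x y r L s i j hW hL hex hO h1 h2 hs hs2
  obtain ⟨s, rfl⟩ : ∃ s', s = s' + 1 := ⟨s - 1, by omega⟩
  have gO := hO.gap hN h
  have hjg := gO.gr
  have hlin : ll τ (v j) + rl τ (v j) + 1 ≤ (τ (v j)).length := by
    have h3 := LL_le_RR hN h hjg
    unfold LL RR at h3
    have := h.step j
    omega
  rcases hlin.lt_or_eq with hnl | hlin
  · -- several growing letters
    left
    obtain ⟨Q, hQ, hQ'⟩ := hmw s i j hO hnl (y + r - j).toNat (by
      have h4 : (y + r - j).toNat ≤ r := by omega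
      have h5 : (s + 1) ^ 2 = s * s + 2 * s + 1 := by ring
      have h6 : 5 ≤ s + 1 := by omega
      nlinarith)
    exact ⟨Q, Or.inr hQ, fun t ht => hQ' t (by omega)⟩
  · -- one growing letter
    obtain ⟨j', g⟩ : ∃ j', Gap τ v j j' := by
      obtain ⟨w, hw1, hw2⟩ := hR j
      have hex : ∃ k : ℕ, Gr τ (v (j + 1 + k)) := by
        refine ⟨(w - j - 1).toNat, ?_⟩
        have e1 : j + 1 + (((w - j - 1).toNat : ℕ) : ℤ) = w := by omega
        rw [e1]
        exact hw2
      refine ⟨j + 1 + (Nat.find hex : ℕ), by omega, hjg, Nat.find_spec hex, ?_⟩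
      intro z hz1 hz2 hz3
      refine Nat.find_min hex (m := (z - j - 1).toNat) (by omega) ?_
      have e1 : j + 1 + (((z - j - 1).toNat : ℕ) : ℤ) = z := by omega
      rw [e1]
      exact hz3
    have hO' := old_right hN h hR hO hlin g
    have hjj := g.lt
    rcases lt_or_ge j' (y + r) with hj' | hj'
    · right
      refine ⟨j', by simpa using hO', hj', ?_⟩
      obtain ⟨m, hm1, hm2⟩ := hL
      have gx := gap_transfer hN h hW g h1 hj'
      obtain ⟨a, ha, y₁, t₁, t₁', hT⟩ := gap_ageT hN h gx (by omega : (c^[L]) m ≤ _) (by omega)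
      have hvt : ∀ z : ℤ, y ≤ z → z < y + r → v (z - y + x) = v z := by
        intro z hz1 hz2
        have := hW (z - y).toNat (by omega)
        have e1 : x + (((z - y).toNat : ℕ) : ℤ) = z - y + x := by omega
        have e2 : y + (((z - y).toNat : ℕ) : ℤ) = z := by omega
        rwa [e1, e2] at this
      obtain ⟨s, rfl⟩ : ∃ s', s = s' + 1 := ⟨s - 1, by omega⟩
      have := match_gap hN h hT hO' (hvt j h1 h2) (hvt j' (by omega) hj') (by ring) (by omega)
      exact ⟨this.1, this.2, hlin⟩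
    · left
      obtain ⟨Q, hQ, hQ'⟩ := hrc x y r L s j j' hW hL g (hex j j' g (by omega) (by omega)) hO' h1 h2
        hj' (by omega)
      obtain ⟨Q₂, hQ₂, hQ₂'⟩ := pre_good (D := 1) (V := v) (p := j) (q := j + 1) (z := y + r)
        (by omega) (by omega) ⟨Q, hQ, hQ'⟩
      exact ⟨Q₂, Or.inl hQ₂, hQ₂'⟩

/-- the walk to the right of an old gap -/
theorem right_walk (hG : GapWord τ v c) (hM : MWord τ v c) (hR : ∀ x, ∃ y > x, Gr τ (v y)) :
    ∃ (S : Set (ℕ → B)) (C : ℕ), S.Finite ∧ ∀ (x y : ℤ) (r L s : ℕ) (i j : ℤ),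
      (∀ t : ℕ, t < r → v (x + t) = v (y + t)) → InBlk c L x r →
      (∀ i' j', Gap τ v i' j' → i' < y + r → y ≤ j' → ∃ n, ¬ Old τ v c n i' j') →
      Old τ v c s i j → y ≤ j → j < y + r → L + C ≤ s → C * (r + 1) ≤ s ^ 2 →
      ∃ Q ∈ S, ∀ t : ℕ, j + t < y + r → v (j + t) = Q t := by
  obtain ⟨S, C, hS, hw⟩ := walk_aux hN h hG hM hR
  refine ⟨pre (3 * tl τ + 1) S, C + 64, pre_finite _ hS, ?_⟩
  intro x y r L s i j hW hL hex hO h1 h2 hs hs2
  have hsq : 16 * (r + 1) ≤ (s - 1) ^ 2 := by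
    obtain ⟨s, rfl⟩ : ∃ s', s = s' + 1 := ⟨s - 1, by omega⟩
    have h5 : (s + 1) ^ 2 = s * s + 2 * s + 1 := by ring
    have h6 : 5 ≤ s + 1 := by omega
    have h7 : 0 ≤ C * (r + 1) := Nat.zero_le _
    rw [Nat.add_sub_cancel]
    nlinarith
  have hsq' : 16 * (r + 1) ≤ s ^ 2 := by
    have h7 : 0 ≤ C * (r + 1) := Nat.zero_le _
    nlinarith
  rcases hw x y r L s i j hW hL hex hO h1 h2 (by omega) hsq' with ⟨Q, hQ, hQ'⟩ | ⟨j', hO', hj', h3, h4, h5⟩
  · exact ⟨Q, pre_mono hQ, hQ'⟩
  · have g := hO'.gap hN h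
    have hjj := g.lt
    rcases hw x y r L (s - 1) j j' hW hL hex hO' (by omega) hj' (by omega) hsq with
      ⟨Q, hQ, hQ'⟩ | ⟨j'', hO'', hj'', h3', h4', h5'⟩
    · exact pre_good (by omega) (by push_cast; omega) ⟨Q, hQ, hQ'⟩
    · exfalso
      have := (hN.dich _ g.gr).1
      omega

end

end Pool.Agent.H83.MW
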